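import Pool.Agent.Lib.MP_63c928_gt.AR.Hyp

/-! The Bass-Serre tree of an amalgam. -/

namespace FJ63

open SimpleGraph Monoid

theorem exists_side {H : Type} {G : Bool → Type} [Group H] [∀ b, Group (G b)]
    (φ : ∀ b, H →* G b) (hφ : ∀ b, Function.Injective (φ b)) :
    ∃ f : Bool → PushoutI φ → Bool, (∀ b g x, f b (PushoutI.of b g * x) = f b x) ∧
      (∀ b, f b 1 = b) ∧ ∀ x, x ∉ (PushoutI.base φ).range → f true x = f false x := by
  classical
  obtain ⟨d⟩ := PushoutI.NormalWord.transversal_nonempty φ hφ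
  let w : PushoutI φ → PushoutI.NormalWord d := fun x => x • PushoutI.NormalWord.empty
  let f : Bool → PushoutI φ → Bool := fun b x =>
    ((PushoutI.NormalWord.equivPair b (w x)).tail.toList.getLast?.map Sigma.fst).getD b
  have htail : ∀ b (v : PushoutI.NormalWord d), (PushoutI.NormalWord.equivPair b v).tail =
      (CoprodI.Word.equivPair b v.toWord).tail := by
    intro b v
    change (CoprodI.Word.equivPair b (CoprodI.of (φ b v.head) • v.toWord)).tail = _
    rw [CoprodI.Word.equivPair_smul_same]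
  have hlast : ∀ b (v : CoprodI.Word G), v.toList ≠ [] → v.toList.getLast?.map Sigma.fst =
      some (((CoprodI.Word.equivPair b v).tail.toList.getLast?.map Sigma.fst).getD b) := by
    intro b v hv
    obtain ⟨p, rfl⟩ := (CoprodI.Word.equivPair b).symm.surjective v
    rw [Equiv.apply_symm_apply]
    rw [CoprodI.Word.equivPair_symm] at hv ⊢
    unfold CoprodI.Word.rcons at hv ⊢
    split_ifs at hv ⊢ with h
    · obtain ⟨x, hx⟩ := Option.isSome_iff_exists.1 (List.getLast?_isSome.2 hv)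
      simp [hx]
    · rw [CoprodI.Word.cons_toList]
      cases hl : p.tail.toList with
      | nil => simp
      | cons a l =>
        obtain ⟨x, hx⟩ := Option.isSome_iff_exists.1
          (List.getLast?_isSome.2 (List.cons_ne_nil a l))
        rw [List.getLast?_cons_cons, hx]
        simp
  refine ⟨f, ?_, ?_, ?_⟩
  · intro b g x
    simp only [f, w, mul_smul]
    rw [PushoutI.NormalWord.summand_smul_def, Equiv.apply_symm_apply]
  · intro b
    simp only [f, w, one_smul]
    rw [htail, CoprodI.Word.equivPair_eq_of_fstIdx_ne (by simp [CoprodI.Word.fstIdx])]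
    simp
  · intro x hx
    have hne : (w x).toList ≠ [] := by
      intro he
      apply hx
      refine ⟨(w x).head, ?_⟩
      have : (w x).prod = x := by simp [w]
      rw [← this]
      conv_lhs => rw [this]
      simp [PushoutI.NormalWord.prod, CoprodI.Word.prod, he]
    simp only [f, htail]
    exact Option.some_injective _ ((hlast true _ hne).symm.trans (hlast false _ hne))

section coset

variable {G : Type} [Group G] (Gs : Bool → Subgroup G)

/-- Two elements define the same vertex if they have the same type and the same coset. -/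
def cosetSetoid : Setoid (Bool × G) where
  r x y := x.1 = y.1 ∧ x.2⁻¹ * y.2 ∈ Gs x.1
  iseqv :=
    { refl := fun x => ⟨rfl, by simp⟩
      symm := by
        rintro ⟨b, g⟩ ⟨b', g'⟩ ⟨rfl, h⟩
        exact ⟨rfl, by simpa using (Gs b).inv_mem h⟩
      trans := by
        rintro ⟨b, g⟩ ⟨b', g'⟩ ⟨b'', g''⟩ ⟨rfl, h⟩ ⟨rfl, h'⟩
        exact ⟨rfl, by simpa [mul_assoc] using (Gs b).mul_mem h h'⟩ }

/-- Vertices: cosets of the two factors. -/
def CV : Type := Quotient (cosetSetoid Gs)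

/-- The vertex of type `b` given by the coset of `g`. -/
def vx (b : Bool) (g : G) : CV Gs := Quotient.mk _ (b, g)

variable {Gs}

theorem vx_eq {b b' : Bool} {g g' : G} : vx Gs b g = vx Gs b' g' ↔ b = b' ∧ g⁻¹ * g' ∈ Gs b :=
  Quotient.eq

theorem vx_surj (x : CV Gs) : ∃ b g, x = vx Gs b g := by
  obtain ⟨⟨b, g⟩, rfl⟩ := Quotient.exists_rep x
  exact ⟨b, g, rfl⟩

variable (Gs)

/-- The coset graph. -/
def cosetG : SimpleGraph (CV Gs) where
  Adj x y := ∃ b g, x = vx Gs b g ∧ y = vx Gs (!b) g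
  symm := ⟨fun _ _ ⟨b, g, h1, h2⟩ => ⟨!b, g, h2, by simpa using h1⟩⟩
  loopless := ⟨by
    rintro _ ⟨b, g, rfl, h⟩
    simpa using (vx_eq.1 h).1⟩

/-- Left multiplication on vertices. -/
def cosetEnd : G →* Function.End (CV Gs) where
  toFun g := Quotient.map (fun x => (x.1, g * x.2)) (by
    rintro ⟨b, x⟩ ⟨b', y⟩ ⟨h1, h2⟩
    exact ⟨h1, by simpa [mul_assoc] using h2⟩)
  map_one' := by
    funext x
    obtain ⟨b, g, rfl⟩ := vx_surj x
    change vx Gs b (1 * g) = vx Gs b g
    rw [one_mul]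
  map_mul' g g' := by
    funext x
    obtain ⟨b, y, rfl⟩ := vx_surj x
    change vx Gs b (g * g' * y) = vx Gs b (g * (g' * y))
    rw [mul_assoc]

/-- The action on vertices. -/
def cosetAct : G →* Equiv.Perm (CV Gs) := (cosetEnd Gs).toHomPerm

variable {Gs}

theorem cosetAct_vx (g : G) (b : Bool) (x : G) : cosetAct Gs g (vx Gs b x) = vx Gs b (g * x) := rfl

theorem coset_adj (g : G) (u v : CV Gs) (h : (cosetG Gs).Adj u v) :
    (cosetG Gs).Adj (cosetAct Gs g u) (cosetAct Gs g v) := by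
  obtain ⟨b, x, rfl, rfl⟩ := h
  exact ⟨b, g * x, rfl, rfl⟩

theorem coset_inv (g : G) (u v : CV Gs) (h : (cosetG Gs).Adj u v) (h1 : cosetAct Gs g u = v) :
    cosetAct Gs g v ≠ u := by
  obtain ⟨b, x, rfl, rfl⟩ := h
  rw [cosetAct_vx] at h1
  simpa using (vx_eq.1 h1).1

/-- The universal property of an amalgam of the two subgroups over `G₀`. -/
def IsAmalgam (Gs : Bool → Subgroup G) (G₀ : Subgroup G) : Prop :=
  ∃ h0 : ∀ b, G₀ ≤ Gs b, Gs true ⊔ Gs false = ⊤ ∧
    ∀ (K : Type) [Group K] (θ : ∀ b, Gs b →* K),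
      (∀ g : G₀, θ true ⟨g, h0 true g.2⟩ = θ false ⟨g, h0 false g.2⟩) →
      ∃ Φ : G →* K, ∀ b (g : Gs b), Φ g = θ b g

theorem sup_ind (h : Gs true ⊔ Gs false = ⊤) (P : G → Prop) (h1 : P 1)
    (hs : ∀ g b, ∀ k ∈ Gs b, P g → P (g * k)) (g : G) : P g := by
  have hg : g ∈ Subgroup.closure ((Gs true : Set G) ∪ Gs false) := by
    rw [Subgroup.closure_union, Subgroup.closure_eq, Subgroup.closure_eq, h]
    trivial
  induction hg using Subgroup.closure_induction_right with
  | one => exact h1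
  | mul_right x _ y hy ih =>
    rcases hy with hy | hy
    · exact hs x true y hy ih
    · exact hs x false y hy ih
  | mul_inv_cancel x _ y hy ih =>
    rcases hy with hy | hy
    · exact hs x true _ ((Gs true).inv_mem hy) ih
    · exact hs x false _ ((Gs false).inv_mem hy) ih

theorem IsAmalgam.main {G₀ : Subgroup G} (h : IsAmalgam Gs G₀) :
    (cosetG Gs).IsTree ∧ ∀ g, g ∈ Gs true → g ∈ Gs false → g ∈ G₀ := by
  obtain ⟨h0, hgen, huniv⟩ := h
  let φ : ∀ b, G₀ →* Gs b := fun b => Subgroup.inclusion (h0 b)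
  have hφ : ∀ b, Function.Injective (φ b) := fun b => Subgroup.inclusion_injective _
  obtain ⟨Φ, hΦ⟩ := huniv (PushoutI φ) (fun b => PushoutI.of (φ := φ) b) (fun g => by
    exact (PushoutI.of_apply_eq_base φ true g).trans (PushoutI.of_apply_eq_base φ false g).symm)
  let Ψ : PushoutI φ →* G := PushoutI.lift (fun b => (Gs b).subtype) G₀.subtype (fun b => rfl)
  have hΨ : ∀ g, Ψ (Φ g) = g := by
    refine sup_ind hgen _ (by simp) ?_
    intro g b k hk ih
    rw [map_mul, map_mul, ih, hΦ b ⟨k, hk⟩]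
    exact congrArg (g * ·) (PushoutI.lift_of (φ := φ) _ _ _ _)
  have hbase : ∀ g, Φ g ∈ (PushoutI.base φ).range → g ∈ G₀ := by
    rintro g ⟨x, hx⟩
    rw [← hΨ g, ← hx, show Ψ (PushoutI.base φ x) = x from PushoutI.lift_base (φ := φ) _ _ _ _]
    exact x.2
  obtain ⟨f, hf1, hf2, hf3⟩ := exists_side φ hφ
  refine ⟨⟨?_, ?_⟩, ?_⟩
  · have : Nonempty (CV Gs) := ⟨vx Gs true 1⟩
    have hadj : ∀ b g, (cosetG Gs).Reachable (vx Gs true g) (vx Gs b g) := by
      intro b g
      cases b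
      · exact Adj.reachable ⟨true, g, rfl, rfl⟩
      · exact Reachable.refl _
    have key : ∀ g, (cosetG Gs).Reachable (vx Gs true 1) (vx Gs true g) := by
      refine sup_ind hgen _ (Reachable.refl _) ?_
      intro g b k hk ih
      have e : vx Gs b g = vx Gs b (g * k) := vx_eq.2 ⟨rfl, by simpa using hk⟩
      exact (ih.trans (hadj b g)).trans (e ▸ (hadj b (g * k)).symm)
    refine ⟨fun x y => ?_⟩
    obtain ⟨b, g, rfl⟩ := vx_surj x
    obtain ⟨b', g', rfl⟩ := vx_surj y
    exact ((key g).trans (hadj b g)).symm.trans ((key g').trans (hadj b' g'))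
  · refine acyclic_of_side _ ?_
    rintro _ _ ⟨b₀, g₀, rfl, rfl⟩
    let F : CV Gs → Prop := Quotient.lift (fun x : Bool × G => f x.1 (Φ (x.2⁻¹ * g₀)) = true) (by
      rintro ⟨b, x⟩ ⟨b', y⟩ ⟨rfl, h⟩
      have : x⁻¹ * g₀ = (x⁻¹ * y) * (y⁻¹ * g₀) := by group
      simp only at h ⊢
      rw [this, map_mul, hΦ b ⟨_, h⟩, hf1])
    have hF : ∀ b g, F (vx Gs b g) = (f b (Φ (g⁻¹ * g₀)) = true) := fun b g => rfl
    refine ⟨F, ?_, ?_⟩
    · rw [hF, hF]
      simp [hf2]
    · rintro _ _ ⟨b, g, rfl, rfl⟩ hne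
      have hg : Φ (g⁻¹ * g₀) ∉ (PushoutI.base φ).range := by
        intro hm
        have e : ∀ b, vx Gs b g = vx Gs b g₀ := fun b => vx_eq.2 ⟨rfl, h0 b (hbase _ hm)⟩
        apply hne
        rw [e, e]
        cases b <;> cases b₀ <;> simp [Sym2.eq_swap]
      have := hf3 _ hg
      rw [hF, hF]
      cases b
      · rw [Bool.not_false, this]
      · rw [Bool.not_true, this]
  · intro g h1 h2
    apply hbase
    rw [← PushoutI.inf_of_range_eq_base_range hφ (i := true) (j := false) (by simp)]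
    exact ⟨⟨⟨g, h1⟩, (hΦ true ⟨g, h1⟩).symm⟩, ⟨⟨g, h2⟩, (hΦ false ⟨g, h2⟩).symm⟩⟩

/-- A presentation-free criterion for the amalgam property. -/
theorem isAmalgam_of_gens {B : Type} (γ : B → G) (T : Bool → Set B)
    (hT : ∀ r, ∃ b, r ∈ T b) (hgen : Subgroup.closure (Set.range γ) = ⊤)
    (hlift : ∀ (K : Type) [Group K] (ξ : B → K),
      (∀ b, ∃ θ : Subgroup.closure (γ '' T b) →* K,
        ∀ r (hr : r ∈ T b), ξ r = θ ⟨γ r, Subgroup.subset_closure ⟨r, hr, rfl⟩⟩) →
      ∃ Φ : G →* K, ∀ r, Φ (γ r) = ξ r) :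
    IsAmalgam (fun b => Subgroup.closure (γ '' T b))
      (Subgroup.closure (γ '' (T true ∩ T false))) := by
  classical
  refine ⟨fun b => Subgroup.closure_mono (Set.image_mono ?_), ?_, ?_⟩
  · cases b
    · exact Set.inter_subset_right
    · exact Set.inter_subset_left
  · rw [← Subgroup.closure_union, ← Set.image_union, ← hgen, ← Set.image_univ]
    congr 2
    refine Set.eq_univ_of_forall fun r => ?_
    obtain ⟨b, hb⟩ := hT r
    cases b
    · exact Or.inr hb
    · exact Or.inl hb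
  · intro K _ θ hθ
    choose β hβ using hT
    let ξ : B → K := fun r => θ (β r) ⟨γ r, Subgroup.subset_closure ⟨r, hβ r, rfl⟩⟩
    have hξ : ∀ b r (hr : r ∈ T b), ξ r = θ b ⟨γ r, Subgroup.subset_closure ⟨r, hr, rfl⟩⟩ := by
      intro b r hr
      suffices ∀ c (h1 : r ∈ T c), θ c ⟨γ r, Subgroup.subset_closure ⟨r, h1, rfl⟩⟩ =
          θ b ⟨γ r, Subgroup.subset_closure ⟨r, hr, rfl⟩⟩ from this _ (hβ r)
      intro c h1
      cases b <;> cases c
      · rfl
      · exact hθ ⟨γ r, Subgroup.subset_closure ⟨r, ⟨h1, hr⟩, rfl⟩⟩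
      · exact (hθ ⟨γ r, Subgroup.subset_closure ⟨r, ⟨hr, h1⟩, rfl⟩⟩).symm
      · rfl
    obtain ⟨Φ, hΦ⟩ := hlift K ξ (fun b => ⟨θ b, hξ b⟩)
    refine ⟨Φ, ?_⟩
    rintro b ⟨g, hg⟩
    induction hg using Subgroup.closure_induction with
    | mem x hx =>
      obtain ⟨r, hr, rfl⟩ := hx
      exact (hΦ r).trans (hξ b r hr)
    | one => exact (map_one Φ).trans (map_one (θ b)).symm
    | mul x y hx hy ihx ihy =>
      exact (map_mul Φ x y).trans (by rw [ihx, ihy]; exact (map_mul (θ b) ⟨x, hx⟩ ⟨y, hy⟩).symm)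
    | inv x hx ih =>
      exact (map_inv Φ x).trans (by rw [ih]; exact (map_inv (θ b) ⟨x, hx⟩).symm)

end coset

/-- The map of coset trees induced by a homomorphism. -/
theorem exists_treeMap {A W : Type} [Group A] [Group W] (As : Bool → Subgroup A)
    (Ws : Bool → Subgroup W) (p : A →* W) (hp : ∀ b, ∀ g ∈ As b, p g ∈ Ws b)
    (hA : (cosetG As).IsTree) (hW : (cosetG Ws).IsTree) :
    ∃ q : CV As → CV Ws, (∀ b g, q (vx As b g) = vx Ws b (p g)) ∧
      TreeMap (cosetG As) (cosetG Ws) (cosetAct As) (cosetAct Ws) p q := by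
  let q : CV As → CV Ws := Quotient.map (fun x => (x.1, p x.2)) (by
    rintro ⟨b, x⟩ ⟨b', y⟩ ⟨h1, h2⟩
    exact ⟨h1, by simpa using hp _ _ h2⟩)
  have hq : ∀ b g, q (vx As b g) = vx Ws b (p g) := fun b g => rfl
  refine ⟨q, hq, hA, hW, coset_adj, coset_adj, coset_inv, coset_inv, ?_, ?_⟩
  · rintro _ _ ⟨b, g, rfl, rfl⟩
    exact ⟨b, p g, rfl, rfl⟩
  · intro g v
    obtain ⟨b, x, rfl⟩ := vx_surj v
    rw [cosetAct_vx, hq, hq, cosetAct_vx, map_mul]

end FJ63
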