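import Pool.Agent.Lib.MP_63c928_gt.AR.Amal
import Pool.Agent.Lib.helper10.Retract

/-! The retraction cocycle of a standard parabolic subgroup of an Artin group. -/

set_option linter.unusedSectionVars false

namespace FJ63

open Pool.Agent.H10 CoxeterSystem

variable {B : Type} [Fintype B] [DecidableEq B] {M : CoxeterMatrix B}

/-- The projection of the Artin group onto the Coxeter group. -/
noncomputable def pr (M : CoxeterMatrix B) : Artin M →* M.Group :=
  alift (cx M).simple (fun i _ j _ => wordProd_braid (cx M) i j)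

@[simp] theorem pr_gen (s : B) : pr M (gen M s) = (cx M).simple s := alift_gen _ _ s

theorem pr_mem {X : Set B} {g : Artin M} (hg : g ∈ apar M X) : pr M g ∈ par (cx M) X := by
  refine apar_induction (P := fun g => pr M g ∈ par (cx M) X) hg (by simp) ?_ ?_
  · intro g _ i hi ih
    rw [map_mul, pr_gen]
    exact mul_mem ih (simple_mem_par _ hi)
  · intro g _ i hi ih
    rw [map_mul, map_inv, pr_gen]
    exact mul_mem ih (inv_mem (simple_mem_par _ hi))

theorem pr_lift {X : Set B} {v : M.Group} (hv : v ∈ par (cx M) X) :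
    ∃ g ∈ apar M X, pr M g = v := by
  refine par_induction (cx M) (P := fun v => ∃ g ∈ apar M X, pr M g = v) hv
    ⟨1, one_mem _, map_one _⟩ ?_
  rintro _ _ i hi ⟨g, hg, rfl⟩
  exact ⟨g * gen M i, mul_mem hg (gen_mem_apar hi), by simp⟩

theorem mem_par_univ (v : M.Group) : v ∈ par (cx M) Set.univ := by
  obtain ⟨l, rfl⟩ := (cx M).wordProd_surjective v
  exact wordProd_mem_par _ (fun _ _ => trivial)

theorem mem_apar_univ (g : Artin M) : g ∈ apar M Set.univ := by simp [apar_univ]

theorem pr_surj : Function.Surjective (pr M) := fun v => by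
  obtain ⟨g, -, hg⟩ := pr_lift (mem_par_univ v)
  exact ⟨g, hg⟩

theorem exists_lm (X : Set B) (y : M.Group) :
    ∃ u : {u : M.Group // LMin M X u}, y * u.1⁻¹ ∈ par (cx M) X := by
  obtain ⟨u, v, hv, hu, e⟩ := exists_min_right (cx M) X y⁻¹
  refine ⟨⟨u⁻¹, fun t ht => ?_⟩, ?_⟩
  · rw [(cx M).isLeftDescent_inv_iff]
    exact hu t ht
  · have : y * u⁻¹⁻¹ = v⁻¹ := by
      rw [← inv_inv y, e]
      group
    simp only
    rw [this]
    exact inv_mem hv

/-- The minimal representative of the coset of `y`. -/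
noncomputable def lm (X : Set B) (y : M.Group) : {u : M.Group // LMin M X u} :=
  (exists_lm X y).choose

theorem lm_spec (X : Set B) (y : M.Group) : y * (lm X y).1⁻¹ ∈ par (cx M) X :=
  (exists_lm X y).choose_spec

theorem lm_eq {X : Set B} {y u : M.Group} (hu : LMin M X u) (h : y * u⁻¹ ∈ par (cx M) X) :
    (lm X y).1 = u := by
  have h1 : (y * (lm X y).1⁻¹)⁻¹ * (y * u⁻¹) ∈ par (cx M) X := mul_mem (inv_mem (lm_spec X y)) h
  have h2 : (lm X y).1 = (y * (lm X y).1⁻¹)⁻¹ * (y * u⁻¹) * u := by group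
  have := min_unique_left (cx M) hu (lm X y).2 h1 h2
  rw [h2, this, one_mul]

theorem lm_congr {X : Set B} {y y' : M.Group} (h : y * y'⁻¹ ∈ par (cx M) X) :
    lm X y = lm X y' := by
  apply Subtype.ext
  refine lm_eq (lm X y').2 ?_
  have : y * (lm X y').1⁻¹ = (y * y'⁻¹) * (y' * (lm X y').1⁻¹) := by group
  rw [this]
  exact mul_mem h (lm_spec X y')

theorem lm_self {X : Set B} (u : {u : M.Group // LMin M X u}) : lm X u.1 = u :=
  Subtype.ext (lm_eq u.2 (by simp))

theorem lmin_one (X : Set B) : LMin M X 1 := fun t _ => (cx M).not_isLeftDescent_one t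

theorem lm_mul_lm (X : Set B) (y v : M.Group) : lm X ((lm X y).1 * v) = lm X (y * v) := by
  refine lm_congr ?_
  have : (lm X y).1 * v * (y * v)⁻¹ = (y * (lm X y).1⁻¹)⁻¹ := by group
  rw [this]
  exact inv_mem (lm_spec X y)

theorem lm_mem {X Y : Set B} (h : X ⊆ Y) {y : M.Group} (hy : y ∈ par (cx M) Y) :
    (lm X y).1 ∈ par (cx M) Y := by
  have : (lm X y).1 = (y * (lm X y).1⁻¹)⁻¹ * y := by group
  rw [this]
  exact mul_mem (inv_mem (par_mono _ h (lm_spec X y))) hy

theorem lm_step_em {X : Set B} {y : M.Group} {s t : B} (h : Em M X (lm X y).1 s t) :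
    lm X (y * (cx M).simple s) = lm X y := by
  rw [← lm_mul_lm, h.2]
  conv_rhs => rw [← lm_self (lm X y)]
  refine lm_congr ?_
  rw [mul_inv_cancel_right]
  exact simple_mem_par _ h.1

theorem lm_step_not {X : Set B} {y : M.Group} {s : B} (h : ¬ ∃ t, Em M X (lm X y).1 s t) :
    (lm X (y * (cx M).simple s)).1 = (lm X y).1 * (cx M).simple s := by
  rw [← lm_mul_lm]
  exact lm_eq ((lm X y).2.step h) (by rw [mul_inv_cancel]; exact one_mem _)

theorem rstep_snd {H : Type} [Group H] {X : Set B} (φ : B → H) (s : B) (x : RSt M X H) :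
    (rstep M X φ s x).2 = lm X (x.2.1 * (cx M).simple s) := by
  by_cases h : ∃ t, Em M X x.2.1 s t
  · obtain ⟨t, ht⟩ := h
    rw [rstep_em ht, lm_step_em (t := t) (by rw [lm_self]; exact ht), lm_self]
  · rw [rstep_not h]
    apply Subtype.ext
    rw [lm_step_not (by rw [lm_self]; exact h), lm_self]

theorem ract_snd {X : Set B} (x : RSt M X (Artin M)) (g : Artin M) :
    (ract (brOn_gen' X) x g).2 = lm X (x.2.1 * pr M g) := by
  refine apar_induction (P := fun g => (ract (brOn_gen' X) x g).2 = lm X (x.2.1 * pr M g))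
    (mem_apar_univ g) (by simp [lm_self]) ?_ ?_
  · intro g _ i _ ih
    rw [ract_mul, ract_gen, rstep_snd, ih, lm_mul_lm, map_mul, pr_gen, mul_assoc]
  · intro g _ i _ ih
    rw [ract_mul, ract_gen_inv, rstep_snd, ih, lm_mul_lm, map_mul, map_inv, pr_gen,
      (cx M).inv_simple, mul_assoc]

/-- The cocycle. -/
noncomputable def cc (X : Set B) (y : M.Group) (g : Artin M) : Artin M :=
  (ract (brOn_gen' X) (1, lm X y) g).1

theorem cc_congr {X : Set B} {y y' : M.Group} (h : y * y'⁻¹ ∈ par (cx M) X) (g : Artin M) :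
    cc X y g = cc X y' g := by
  rw [cc, cc, lm_congr h]

theorem cc_mul (X : Set B) (y : M.Group) (g g' : Artin M) :
    cc X y (g * g') = cc X y g * cc X (y * pr M g) g' := by
  have h1 : ract (brOn_gen' X) (1, lm X y) g = (cc X y g * 1, lm X (y * pr M g)) :=
    Prod.ext (by simp [cc]) (by rw [ract_snd, lm_mul_lm])
  rw [cc, ract_mul, h1]
  exact congrArg Prod.fst (ract_left (brOn_gen' X) (cc X y g) (1, lm X (y * pr M g)) g')

@[simp] theorem cc_one (X : Set B) (y : M.Group) : cc X y 1 = 1 := by simp [cc]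

theorem cc_inv (X : Set B) (y : M.Group) (g : Artin M) :
    cc X y g⁻¹ = (cc X (y * (pr M g)⁻¹) g)⁻¹ := by
  rw [eq_inv_iff_mul_eq_one, ← map_inv, ← cc_mul]
  simp

theorem cc_gen_em {X : Set B} {y : M.Group} {s t : B} (h : Em M X (lm X y).1 s t) :
    cc X y (gen M s) = gen M t := by
  rw [cc, ract_gen, rstep_em (x := (1, lm X y)) h, one_mul]

theorem cc_gen_not {X : Set B} {y : M.Group} {s : B} (h : ¬ ∃ t, Em M X (lm X y).1 s t) :
    cc X y (gen M s) = 1 := by
  rw [cc, ract_gen, rstep_not (x := (1, lm X y)) h]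

theorem cc_mem (X : Set B) (y : M.Group) (g : Artin M) : cc X y g ∈ apar M X := by
  have key : ∀ y s, cc X y (gen M s) ∈ apar M X := by
    intro y s
    by_cases h : ∃ t, Em M X (lm X y).1 s t
    · obtain ⟨t, ht⟩ := h
      rw [cc_gen_em ht]
      exact gen_mem_apar ht.1
    · rw [cc_gen_not h]
      exact one_mem _
  refine apar_induction (P := fun g => cc X y g ∈ apar M X) (mem_apar_univ g) (by simp) ?_ ?_
  · intro g _ i _ ih
    rw [cc_mul]
    exact mul_mem ih (key _ _)
  · intro g _ i _ ih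
    rw [cc_mul, cc_inv]
    exact mul_mem ih (inv_mem (key _ _))

theorem cc_of_mem {X : Set B} {g : Artin M} (hg : g ∈ apar M X) : cc X 1 g = g := by
  have : lm X (1 : M.Group) = ⟨1, lmin_one X⟩ := lm_self ⟨1, lmin_one X⟩
  rw [cc, this]
  exact retr_of_mem hg

/-- The cocycle with values in the parabolic subgroup. -/
noncomputable def ccs (X : Set B) (y : M.Group) (g : Artin M) : apar M X := ⟨cc X y g, cc_mem X y g⟩

theorem ccs_mul (X : Set B) (y : M.Group) (g g' : Artin M) :
    ccs X y (g * g') = ccs X y g * ccs X (y * pr M g) g' := Subtype.ext (cc_mul X y g g')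

theorem ccs_inv (X : Set B) (y : M.Group) (g : Artin M) :
    ccs X y g⁻¹ = (ccs X (y * (pr M g)⁻¹) g)⁻¹ := Subtype.ext (cc_inv X y g)

/-- Conjugation formula. -/
theorem cc_conj (X : Set B) (y : M.Group) (a b : Artin M) (hb : pr M b = 1) :
    cc X y (a * b * a⁻¹) = cc X y a * cc X (y * pr M a) b * (cc X y a)⁻¹ := by
  rw [cc_mul, cc_mul, cc_inv, map_mul, hb, mul_one, mul_inv_cancel_right]

section sim

variable {X Y Z : Set B} {d : M.Group}

theorem sim_em (hZ : Z ⊆ Y)
    (h2 : ∀ v ∈ par (cx M) Y, ∀ t ∈ X, d * v = (cx M).simple t * d →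
      ∃ z ∈ Z, v = (cx M).simple z)
    {u : M.Group} (hu : u ∈ par (cx M) Y) {s : B} (hs : s ∈ Y)
    (h : ¬ ∃ z, Em M Z (lm Z u).1 s z) : ¬ ∃ t, Em M X (d * (lm Z u).1) s t := by
  rintro ⟨t, ht, e⟩
  have hm := lm_mem hZ hu
  obtain ⟨z, hz, e'⟩ := h2 ((lm Z u).1 * (cx M).simple s * (lm Z u).1⁻¹)
    (mul_mem (mul_mem hm (simple_mem_par _ hs)) (inv_mem hm)) t ht (by
      rw [← mul_assoc, ← mul_assoc, e]
      group)
  exact h ⟨z, hz, by rw [← e']; group⟩

theorem sim_em' {u : M.Group} {s z t : B} (ht : t ∈ X)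
    (e : d * (cx M).simple z = (cx M).simple t * d) (h : Em M Z u s z) : Em M X (d * u) s t :=
  ⟨ht, by rw [mul_assoc, h.2, ← mul_assoc, e, mul_assoc]⟩

theorem sim_lm (hd : LMin M X d) (hZ : Z ⊆ Y)
    (h1 : ∀ z ∈ Z, ∃ t ∈ X, d * (cx M).simple z = (cx M).simple t * d)
    (h2 : ∀ v ∈ par (cx M) Y, ∀ t ∈ X, d * v = (cx M).simple t * d →
      ∃ z ∈ Z, v = (cx M).simple z)
    {u : M.Group} (hu : u ∈ par (cx M) Y) : (lm X (d * u)).1 = d * (lm Z u).1 := by
  refine par_induction (cx M) (P := fun u => (lm X (d * u)).1 = d * (lm Z u).1) hu ?_ ?_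
  · rw [mul_one, lm_eq hd (by simp), lm_eq (lmin_one Z) (by simp), mul_one]
  · intro u hu i hi ih
    rw [← mul_assoc]
    by_cases h : ∃ z, Em M Z (lm Z u).1 i z
    · obtain ⟨z, hz⟩ := h
      obtain ⟨t, ht, e⟩ := h1 z hz.1
      rw [lm_step_em hz, lm_step_em (t := t) (by rw [ih]; exact sim_em' ht e hz), ih]
    · rw [lm_step_not h, lm_step_not (by rw [ih]; exact sim_em hZ h2 hu hi h), ih, mul_assoc]

theorem sim_cc (hd : LMin M X d) (hZ : Z ⊆ Y) (F : apar M Z →* Artin M)
    (h1 : ∀ z (hz : z ∈ Z), ∃ t ∈ X, d * (cx M).simple z = (cx M).simple t * d ∧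
      F ⟨gen M z, gen_mem_apar hz⟩ = gen M t)
    (h2 : ∀ v ∈ par (cx M) Y, ∀ t ∈ X, d * v = (cx M).simple t * d →
      ∃ z ∈ Z, v = (cx M).simple z)
    {u : M.Group} (hu : u ∈ par (cx M) Y) {g : Artin M} (hg : g ∈ apar M Y) :
    cc X (d * u) g = F (ccs Z u g) := by
  have h1' : ∀ z ∈ Z, ∃ t ∈ X, d * (cx M).simple z = (cx M).simple t * d := fun z hz => by
    obtain ⟨t, ht, e, -⟩ := h1 z hz
    exact ⟨t, ht, e⟩
  have key : ∀ u ∈ par (cx M) Y, ∀ i ∈ Y, cc X (d * u) (gen M i) = F (ccs Z u (gen M i)) := by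
    intro u hu i hi
    have hl := sim_lm hd hZ h1' h2 hu
    by_cases h : ∃ z, Em M Z (lm Z u).1 i z
    · obtain ⟨z, hz⟩ := h
      obtain ⟨t, ht, e, e'⟩ := h1 z hz.1
      rw [cc_gen_em (t := t) (by rw [hl]; exact sim_em' ht e hz), ← e']
      congr 1
      exact Subtype.ext (cc_gen_em hz).symm
    · rw [cc_gen_not (by rw [hl]; exact sim_em hZ h2 hu hi h),
        show ccs Z u (gen M i) = 1 from Subtype.ext (cc_gen_not h), map_one]
  refine apar_induction (P := fun g => cc X (d * u) g = F (ccs Z u g)) hg ?_ ?_ ?_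
  · rw [cc_one, show ccs Z u 1 = 1 from Subtype.ext (cc_one Z u), map_one]
  · intro g hg i hi ih
    rw [cc_mul, ccs_mul, map_mul, ih, mul_assoc, key _ (mul_mem hu (pr_mem hg)) i hi]
  · intro g hg i hi ih
    rw [cc_mul, ccs_mul, map_mul, ih, cc_inv, ccs_inv, map_inv F, mul_assoc d, mul_assoc d,
      key _ (mul_mem (mul_mem hu (pr_mem hg)) (inv_mem (pr_mem (gen_mem_apar hi)))) i hi]

/-- An element of a parabolic subgroup conjugated to a generator by a minimal element. -/
theorem simple_of_conj (hd : ∀ t ∈ Y, ¬ (cx M).IsRightDescent d t) {v : M.Group}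
    (hv : v ∈ par (cx M) Y) {t : B} (e : d * v = (cx M).simple t * d) :
    ¬ (cx M).IsLeftDescent d t ∧ ∃ z ∈ Y, v = (cx M).simple z := by
  have h1 := length_mul_min (cx M) hd hv
  have hv1 : (cx M).length v ≠ 0 := by
    intro h
    rw [(cx M).length_eq_zero_iff.1 h, mul_one, eq_comm, mul_eq_right] at e
    have := (cx M).length_simple t
    rw [e] at this
    simp at this
  rw [e] at h1
  have h2 : ¬ (cx M).IsLeftDescent d t := by
    rw [IsLeftDescent]
    omega
  refine ⟨h2, ?_⟩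
  rw [(cx M).not_isLeftDescent_iff.1 h2] at h1
  obtain ⟨z, rfl⟩ := (cx M).length_eq_one_iff.1 (show (cx M).length v = 1 by omega)
  exact ⟨z, mem_of_simple_mem_par _ hv, rfl⟩

theorem exists_conj_hom (hd : LMin M X d) (hd' : ∀ t ∈ Z, ¬ (cx M).IsRightDescent d t)
    (f : B → B) (hf : ∀ z ∈ Z, f z ∈ X ∧ d * (cx M).simple z = (cx M).simple (f z) * d) :
    ∃ F : apar M Z →* Artin M, ∀ z (hz : z ∈ Z), F ⟨gen M z, gen_mem_apar hz⟩ = gen M (f z) := by
  have hw : ∀ l : List B, (∀ c ∈ l, c ∈ Z) →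
      d * (cx M).wordProd l = (cx M).wordProd (l.map f) * d := by
    intro l hl
    induction l with
    | nil => simp
    | cons a l ih =>
      rw [List.map_cons, wordProd_cons, wordProd_cons, ← mul_assoc, (hf a (hl a (by simp))).2,
        mul_assoc, ih (fun c hc => hl c (by simp [hc])), mul_assoc]
  have hr : ∀ l : List B, (∀ c ∈ l, c ∈ Z) → (cx M).IsReduced l → (cx M).IsReduced (l.map f) := by
    intro l hl h
    have e1 := length_mul_min (cx M) hd' (wordProd_mem_par _ hl)
    have e2 := length_mul_min_left (cx M) hd (wordProd_mem_par (cx M) (l := l.map f) (by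
      intro c hc
      obtain ⟨z, hz, rfl⟩ := List.mem_map.1 hc
      exact (hf z (hl z hz)).1))
    rw [hw l hl, e2, h.eq] at e1
    unfold CoxeterSystem.IsReduced
    rw [List.length_map]
    omega
  have hb : BrOn M Z (fun z => gen M (f z)) := by
    intro i hi j hj
    by_cases hij : i = j
    · subst hij; rfl
    have m1 : ∀ c ∈ alt i j (M i j), c ∈ Z := fun c hc => by
      rcases mem_alt hc with rfl | rfl <;> assumption
    have m2 : ∀ c ∈ alt j i (M i j), c ∈ Z := fun c hc => by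
      rcases mem_alt hc with rfl | rfl <;> assumption
    have r1 := hr _ m1 (red_alt (cx M) hij (Or.inr le_rfl))
    have r2 := hr _ m2 (red_alt (cx M) (Ne.symm hij) (Or.inr (M.symmetric i j).le))
    have e : (cx M).wordProd ((alt i j (M i j)).map f) =
        (cx M).wordProd ((alt j i (M i j)).map f) := by
      apply mul_right_cancel (b := d)
      rw [← hw _ m1, ← hw _ m2, wordProd_braid]
    have := (matsumoto (cx M) r1 r2 e).pos_eq
    simpa [pos, List.map_map, Function.comp_def] using this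
  exact ⟨parLift hb, fun z hz => rext_gen hb hz⟩

end sim

end FJ63
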