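import Pool.Agent.Lib.MP_63c928_gt.LN.Act

/-! The tree of cylinders of an edge colouring. -/

namespace FJ63

open SimpleGraph

/-- Layers: the edges of `T` sorted by their colour. -/
def clay {V ι : Type} (T : SimpleGraph V) (κ : Sym2 V → ι) : SimpleGraph (V × ι) where
  Adj p q := p.2 = q.2 ∧ T.Adj p.1 q.1 ∧ κ s(p.1, q.1) = p.2
  symm := ⟨fun _ _ ⟨h1, h2, h3⟩ => ⟨h1.symm, h2.symm, by rw [Sym2.eq_swap, h3, h1]⟩⟩
  loopless := ⟨fun _ h => T.irrefl h.2.1⟩

/-- The tree of cylinders. -/
def ccyl {V ι : Type} (T : SimpleGraph V) (κ : Sym2 V → ι) :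
    SimpleGraph (V ⊕ (clay T κ).ConnectedComponent) where
  Adj a b := ∃ v c, (a = Sum.inl v ∧ b = Sum.inr ((clay T κ).connectedComponentMk (v, c))) ∨
    (b = Sum.inl v ∧ a = Sum.inr ((clay T κ).connectedComponentMk (v, c)))
  symm := ⟨fun _ _ ⟨v, c, h⟩ => ⟨v, c, h.symm⟩⟩
  loopless := ⟨by
    rintro _ ⟨v, c, ⟨rfl, h⟩ | ⟨rfl, h⟩⟩ <;> cases h⟩

theorem clay_level {V ι : Type} {T : SimpleGraph V} {κ : Sym2 V → ι} {p q : V × ι}
    (h : (clay T κ).Reachable p q) : p.2 = q.2 :=
  reach_inv (G := clay T κ) (fun p : V × ι => p.2) (fun _ _ h => h.1) h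

theorem ccyl_isTree {V ι : Type} {T : SimpleGraph V} (hT : T.IsTree) (κ : Sym2 V → ι) :
    (ccyl T κ).IsTree := by
  refine ⟨?_, ?_⟩
  · have : Nonempty V := hT.connected.nonempty
    have h1 : ∀ x y, (ccyl T κ).Reachable (Sum.inl x) (Sum.inl y) := by
      intro x y
      refine reach_ind (fun y => (ccyl T κ).Reachable (Sum.inl x) (Sum.inl y))
        (Reachable.refl _) ?_ (hT.connected.preconnected x y)
      intro y z _ hyz ih
      have e : (clay T κ).connectedComponentMk (y, κ s(y, z)) =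
          (clay T κ).connectedComponentMk (z, κ s(y, z)) :=
        ConnectedComponent.sound (Adj.reachable ⟨rfl, hyz, rfl⟩)
      have a1 : (ccyl T κ).Adj (Sum.inl y)
          (Sum.inr ((clay T κ).connectedComponentMk (y, κ s(y, z)))) :=
        ⟨y, _, Or.inl ⟨rfl, rfl⟩⟩
      have a2 : (ccyl T κ).Adj (Sum.inr ((clay T κ).connectedComponentMk (y, κ s(y, z))))
          (Sum.inl z) := ⟨z, _, Or.inr ⟨rfl, by rw [e]⟩⟩
      exact (ih.trans a1.reachable).trans a2.reachable
    have h2 : ∀ a, ∃ x, (ccyl T κ).Reachable a (Sum.inl x) := by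
      rintro (x | Z)
      · exact ⟨x, Reachable.refl _⟩
      · induction Z using ConnectedComponent.ind with | _ p =>
        exact ⟨p.1, Adj.reachable ⟨p.1, p.2, Or.inr ⟨rfl, rfl⟩⟩⟩
    refine ⟨?_⟩
    intro a b
    obtain ⟨x, hx⟩ := h2 a
    obtain ⟨y, hy⟩ := h2 b
    exact (hx.trans (h1 x y)).trans hy.symm
  · have main : ∀ (v : V) (c : ι), ∃ f : V ⊕ (clay T κ).ConnectedComponent → Prop,
        f (Sum.inl v) ≠ f (Sum.inr ((clay T κ).connectedComponentMk (v, c))) ∧
        ∀ x c', ¬ (x = v ∧ (clay T κ).connectedComponentMk (x, c') =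
          (clay T κ).connectedComponentMk (v, c)) →
          f (Sum.inl x) = f (Sum.inr ((clay T κ).connectedComponentMk (x, c'))) := by
      intro v c
      let F : ι → V → Prop := fun c x =>
        ∃ w, T.Adj v w ∧ κ s(v, w) = c ∧ (away T v).Reachable w x
      have hFv : ∀ c x, F c x → x ≠ v := by
        rintro c x ⟨w, hw, -, hr⟩
        exact reach_ind (G := away T v) (fun x => x ≠ v) hw.ne.symm (fun y z _ h _ => h.2.2) hr
      have hA : ∀ c q, (clay T κ).Reachable (v, c) q → q.1 = v ∨ F c q.1 := by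
        intro c q hq
        refine reach_ind (fun q : V × ι => q.1 = v ∨ F c q.1) (Or.inl rfl) ?_ hq
        intro y z hy hyz ih
        by_cases hz : z.1 = v
        · exact Or.inl hz
        right
        rcases ih with h | h
        · refine ⟨z.1, h ▸ hyz.2.1, ?_, Reachable.refl _⟩
          rw [← h, hyz.2.2]
          exact (clay_level hy).symm
        · have hy1 := hFv _ _ h
          obtain ⟨w, h1, h2, h3⟩ := h
          exact ⟨w, h1, h2, h3.trans (Adj.reachable ⟨hyz.2.1, hy1, hz⟩)⟩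
      have hB : ∀ p q, (clay T κ).Reachable p q → F c p.1 →
          F c q.1 ∨ (clay T κ).Reachable p (v, p.2) := by
        intro p q hq hp
        refine reach_ind (fun q : V × ι => F c q.1 ∨ (clay T κ).Reachable p (v, p.2))
          (Or.inl hp) ?_ hq
        intro y z hy hyz ih
        rcases ih with h | h
        · by_cases hz : z.1 = v
          · right
            have : z = (v, p.2) := Prod.ext hz (clay_level (hy.trans hyz.reachable)).symm
            exact this ▸ hy.trans hyz.reachable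
          · left
            have hy1 := hFv _ _ h
            obtain ⟨w, h1, h2, h3⟩ := h
            exact ⟨w, h1, h2, h3.trans (Adj.reachable ⟨hyz.2.1, hy1, hz⟩)⟩
        · exact Or.inr h
      have hC : ∀ c' x, F c x → F c' x → c = c' := by
        rintro c' x ⟨w, h1, h2, h3⟩ ⟨w', h1', h2', h3'⟩
        by_contra hcc
        have hww : w ≠ w' := by
          rintro rfl
          exact hcc (h2.symm.trans h2')
        have hb := (isAcyclic_iff_forall_adj_isBridge.1 hT.isAcyclic) h1
        rw [isBridge_iff] at hb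
        apply hb
        have hle : away T v ≤ T.deleteEdges {s(v, w)} := by
          intro x y hxy
          rw [deleteEdges_adj]
          refine ⟨hxy.1, ?_⟩
          simp only [Set.mem_singleton_iff, Sym2.eq_iff]
          rintro (⟨h, -⟩ | ⟨-, h⟩)
          · exact hxy.2.1 h
          · exact hxy.2.2 h
        have e1 : (T.deleteEdges {s(v, w)}).Adj v w' := by
          rw [deleteEdges_adj]
          refine ⟨h1', ?_⟩
          simp only [Set.mem_singleton_iff, Sym2.eq_iff]
          rintro (⟨-, h⟩ | ⟨h, -⟩)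
          · exact hww h.symm
          · exact h1.ne h
        exact e1.reachable.trans ((h3'.trans h3.symm).mono hle)
      refine ⟨Sum.elim (F c) (fun Z => Z = (clay T κ).connectedComponentMk (v, c) ∨
        ∃ p, (clay T κ).connectedComponentMk p = Z ∧ F c p.1), ?_, ?_⟩
      · simp only [Sum.elim_inl, Sum.elim_inr, true_or]
        intro h
        exact hFv c v (h ▸ trivial) rfl
      · intro x c' hne
        simp only [Sum.elim_inl, Sum.elim_inr]
        refine propext ⟨fun h => Or.inr ⟨(x, c'), rfl, h⟩, ?_⟩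
        have case1 : (clay T κ).connectedComponentMk (x, c') =
            (clay T κ).connectedComponentMk (v, c) → F c x := by
          intro h
          rcases hA c (x, c') (ConnectedComponent.exact h).symm with h' | h'
          · exact absurd ⟨h', h⟩ hne
          · exact h'
        rintro (h | ⟨p, hp, hF⟩)
        · exact case1 h
        · have hr := ConnectedComponent.exact hp
          rcases hB p _ hr hF with h' | h'
          · exact h'
          · rcases hA p.2 p h'.symm with h'' | h''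
            · exact absurd h'' (hFv _ _ hF)
            · have := hC _ _ hF h''
              apply case1
              rw [← hp, this]
              exact ConnectedComponent.sound h'
    refine acyclic_of_side _ ?_
    have main2 : ∀ (v : V) (c : ι), ∃ f : V ⊕ (clay T κ).ConnectedComponent → Prop,
        f (Sum.inl v) ≠ f (Sum.inr ((clay T κ).connectedComponentMk (v, c))) ∧
        ∀ x y, (ccyl T κ).Adj x y →
          s(x, y) ≠ s(Sum.inl v, Sum.inr ((clay T κ).connectedComponentMk (v, c))) →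
          f x = f y := by
      intro v c
      obtain ⟨f, hf, hf'⟩ := main v c
      refine ⟨f, hf, ?_⟩
      rintro _ _ ⟨x, c', ⟨rfl, rfl⟩ | ⟨rfl, rfl⟩⟩ hne
      · refine hf' x c' ?_
        rintro ⟨rfl, h⟩
        exact hne (by rw [h])
      · refine (hf' x c' ?_).symm
        rintro ⟨rfl, h⟩
        exact hne (by rw [h, Sym2.eq_swap])
    rintro _ _ ⟨v, c, ⟨rfl, rfl⟩ | ⟨rfl, rfl⟩⟩
    · exact main2 v c
    · obtain ⟨f, hf, hf'⟩ := main2 v c
      refine ⟨f, hf.symm, fun x y h hne => hf' x y h ?_⟩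
      rwa [Sym2.eq_swap (a := Sum.inl v)]

variable {Q : Type} [Group Q]

/-- Acting on the tree of cylinders of an equivariant colouring. -/
theorem Generated.of_col {L V ι : Type} [Group L] (T : SimpleGraph V) (ρ : L →* Equiv.Perm V)
    (hT : T.IsTree) (hadj : ∀ g u v, T.Adj u v → T.Adj (ρ g u) (ρ g v))
    (κ : Sym2 V → ι) (τ : L →* Equiv.Perm ι) (hκ : ∀ g u v, κ s(ρ g u, ρ g v) = τ g (κ s(u, v)))
    (hac : ∀ g x y z, ρ g x = x → ρ g y = y → ρ g z = z → T.Adj x y → T.Adj x z →
      κ s(x, y) ≠ κ s(x, z) → g = 1)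
    (hv : ∀ v, Generated Q (stab ρ v))
    (hc : ∀ u v, T.Adj u v → Generated Q (stab τ (κ s(u, v)))) : Generated Q L := by
  let F : L →* Function.End (V × ι) :=
    { toFun := fun g p => (ρ g p.1, τ g p.2)
      map_one' := by funext p; simp [Function.End.one_def]
      map_mul' := by
        intro g g'
        funext p
        change (ρ (g * g') p.1, τ (g * g') p.2) = (ρ g (ρ g' p.1), τ g (τ g' p.2))
        rw [map_mul, map_mul, Equiv.Perm.mul_apply, Equiv.Perm.mul_apply] }
  let ρ₁ : L →* Equiv.Perm (V × ι) := F.toHomPerm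
  have hρ₁ : ∀ g v c, ρ₁ g (v, c) = (ρ g v, τ g c) := fun g v c => rfl
  obtain ⟨ρ₂, hρ₂⟩ := exists_compAct (clay T κ) ρ₁ (by
    rintro g ⟨u, c⟩ ⟨w, c'⟩ ⟨h1, h2, h3⟩
    rw [hρ₁, hρ₁]
    refine ⟨by simpa using h1, hadj g u w h2, ?_⟩
    simp only [hκ] at h3 ⊢
    rw [h3])
  let ρ₃ : L →* Equiv.Perm (V ⊕ (clay T κ).ConnectedComponent) :=
    (Equiv.Perm.sumCongrHom _ _).comp (ρ.prod ρ₂)
  have hl : ∀ g v, ρ₃ g (Sum.inl v) = Sum.inl (ρ g v) := fun g v => rfl
  have hr : ∀ g v c, ρ₃ g (Sum.inr ((clay T κ).connectedComponentMk (v, c))) =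
      Sum.inr ((clay T κ).connectedComponentMk (ρ g v, τ g c)) := by
    intro g v c
    change Sum.inr (ρ₂ g _) = _
    rw [hρ₂, hρ₁]
  have hadj₃ : ∀ g a b, (ccyl T κ).Adj a b → (ccyl T κ).Adj (ρ₃ g a) (ρ₃ g b) := by
    rintro g _ _ ⟨v, c, ⟨rfl, rfl⟩ | ⟨rfl, rfl⟩⟩
    · exact ⟨_, _, Or.inl ⟨hl g v, hr g v c⟩⟩
    · exact ⟨_, _, Or.inr ⟨hl g v, hr g v c⟩⟩
  have hL : ∀ x b, (ccyl T κ).Adj (Sum.inl x) b →
      ∃ c, b = Sum.inr ((clay T κ).connectedComponentMk (x, c)) := by
    rintro x _ ⟨v, c, ⟨h, rfl⟩ | ⟨rfl, h⟩⟩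
    · cases h; exact ⟨c, rfl⟩
    · cases h
  have hR : ∀ Z b, (ccyl T κ).Adj (Sum.inr Z) b →
      ∃ y c, b = Sum.inl y ∧ Z = (clay T κ).connectedComponentMk (y, c) := by
    rintro Z _ ⟨v, c, ⟨h, rfl⟩ | ⟨rfl, h⟩⟩
    · cases h
    · cases h; exact ⟨v, c, rfl, rfl⟩
  have hnbr : ∀ g x y c c', ρ g x = x → ρ g y = y → x ≠ y →
      (clay T κ).connectedComponentMk (x, c) = (clay T κ).connectedComponentMk (y, c') →
      ∃ z, T.Adj x z ∧ ρ g z = z ∧ κ s(x, z) = c := by
    intro g x y c c' hx hy hne he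
    let T₀ : SimpleGraph V :=
      { Adj := fun u w => T.Adj u w ∧ κ s(u, w) = c
        symm := ⟨fun _ _ h => ⟨h.1.symm, by rw [Sym2.eq_swap, h.2]⟩⟩
        loopless := ⟨fun _ h => T.irrefl h.1⟩ }
    have hre : T₀.Reachable x y := by
      refine reach_ind (G := clay T κ) (fun q => T₀.Reachable x q.1) (Reachable.refl _) ?_
        (ConnectedComponent.exact he)
      intro p q hp hpq ih
      refine ih.trans (Adj.reachable ⟨hpq.2.1, ?_⟩)
      rw [hpq.2.2]
      exact (clay_level hp).symm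
    obtain ⟨z, hz, hz'⟩ := fix_nbr hT.isAcyclic (T₀ := T₀) (fun _ _ h => h.1) (ρ g) (hadj g)
      hx hy hne hre
    exact ⟨z, hz.1, hz', hz.2⟩
  refine Generated.tree' (ccyl T κ) ρ₃ 5 (ccyl_isTree hT κ) hadj₃ ?_ ?_ ?_
  · rintro g _ _ ⟨v, c, ⟨rfl, rfl⟩ | ⟨rfl, rfl⟩⟩ h
    · rw [hl] at h; cases h
    · rw [hr] at h; cases h
  · intro u v huv g hu hv
    obtain ⟨a, ha, hadj', hinj⟩ := exists_fixed_path (ccyl_isTree hT κ) (ρ₃ g) (hadj₃ g) hu hv
    have key : ∀ i x₀, i ≤ 1 → a i = Sum.inl x₀ → g = 1 := by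
      intro i x₀ hi h0
      obtain ⟨c₁, h1⟩ := hL x₀ _ (h0 ▸ hadj' i (by omega))
      obtain ⟨x₁, c₁', h2, e1⟩ := hR _ _ (h1 ▸ hadj' (i + 1) (by omega))
      obtain ⟨c₂, h3⟩ := hL x₁ _ (h2 ▸ hadj' (i + 1 + 1) (by omega))
      obtain ⟨x₂, c₂', h4, e2⟩ := hR _ _ (h3 ▸ hadj' (i + 1 + 1 + 1) (by omega))
      have f0 : ρ g x₀ = x₀ := by
        have := ha i; rw [h0, hl] at this; exact Sum.inl_injective this
      have f1 : ρ g x₁ = x₁ := by
        have := ha (i + 1 + 1); rw [h2, hl] at this; exact Sum.inl_injective this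
      have f2 : ρ g x₂ = x₂ := by
        have := ha (i + 1 + 1 + 1 + 1); rw [h4, hl] at this; exact Sum.inl_injective this
      have n1 : x₁ ≠ x₀ := by
        rintro rfl
        have := hinj i (i + 1 + 1) (by omega) (by omega) (h0.trans h2.symm)
        omega
      have n2 : x₁ ≠ x₂ := by
        rintro rfl
        have := hinj (i + 1 + 1) (i + 1 + 1 + 1 + 1) (by omega) (by omega) (h2.trans h4.symm)
        omega
      have n3 : c₁' ≠ c₂ := by
        rintro rfl
        have := hinj (i + 1) (i + 1 + 1 + 1) (by omega) (by omega) (by rw [h1, h3, e1])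
        omega
      obtain ⟨y, hy1, hy2, hy3⟩ := hnbr g x₁ x₀ c₁' c₁ f1 f0 n1 e1.symm
      obtain ⟨z, hz1, hz2, hz3⟩ := hnbr g x₁ x₂ c₂ c₂' f1 f2 n2 e2
      exact hac g x₁ y z f1 hy2 hz2 hy1 hz1 (by rw [hy3, hz3]; exact n3)
    rcases h0 : a 0 with x | Z
    · exact key 0 x (by omega) h0
    · obtain ⟨y, c, h1, -⟩ := hR _ _ (h0 ▸ hadj' 0 (by omega))
      exact key 1 y le_rfl h1
  · intro v
    rcases v with x | Z
    · refine Generated.of_le ?_ (hv x)
      intro g hg
      rw [mem_stab, hl] at hg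
      exact Sum.inl_injective hg
    · induction Z using ConnectedComponent.ind with | _ p =>
      obtain ⟨x, c⟩ := p
      by_cases hx : ∃ y, T.Adj x y ∧ κ s(x, y) = c
      · obtain ⟨y, hy, rfl⟩ := hx
        refine Generated.of_le ?_ (hc x y hy)
        intro g hg
        rw [mem_stab, hr] at hg
        exact clay_level (ConnectedComponent.exact (Sum.inr_injective hg))
      · refine Generated.of_le ?_ (hv x)
        intro g hg
        rw [mem_stab, hr] at hg
        have hre := (ConnectedComponent.exact (Sum.inr_injective hg)).symm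
        have := reach_ind (G := clay T κ) (fun q => q = (x, c)) rfl (by
          rintro p q - hpq rfl
          exact absurd ⟨q.1, hpq.2.1, hpq.2.2⟩ hx) hre
        exact congrArg Prod.fst this

/-- Trivial edge stabilisers. -/
theorem Generated.of_edge_triv {L V : Type} [Group L] (T : SimpleGraph V) (ρ : L →* Equiv.Perm V)
    (hT : T.IsTree) (hadj : ∀ g u v, T.Adj u v → T.Adj (ρ g u) (ρ g v))
    (hinv : ∀ g u v, T.Adj u v → ρ g u = v → ρ g v ≠ u)
    (he : ∀ g u v, T.Adj u v → ρ g u = u → ρ g v = v → g = 1)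
    (hv : ∀ v, Generated Q (stab ρ v)) : Generated Q L := by
  refine Generated.tree' T ρ 1 hT hadj hinv ?_ hv
  intro u v huv g hu hv'
  have hne : u ≠ v := by
    rintro rfl
    simp at huv
  obtain ⟨z, hz, hz'⟩ := fix_nbr hT.isAcyclic le_rfl (ρ g) (hadj g) hu hv' hne
    (hT.connected.preconnected u v)
  exact he g u z hz hu hz'

theorem Generated.stab_sub {L V : Type} [Group L] (ρ : L →* Equiv.Perm V) (S : Subgroup L) (v : V)
    (h : Generated Q (stab ρ v)) : Generated Q (stab (ρ.comp S.subtype) v) :=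
  Generated.of_map_le S.subtype _ _ (fun _ _ hx => Subtype.ext hx) (fun _ hx => hx) h

/-- A homomorphism to `ℤ` that is injective on edge stabilisers. -/
theorem Generated.of_edge_int {L V : Type} [Group L] (T : SimpleGraph V) (ρ : L →* Equiv.Perm V)
    (hT : T.IsTree) (hadj : ∀ g u v, T.Adj u v → T.Adj (ρ g u) (ρ g v))
    (hinv : ∀ g u v, T.Adj u v → ρ g u = v → ρ g v ≠ u) (δ : L →* Multiplicative ℤ)
    (hδ : ∀ g u v, T.Adj u v → ρ g u = u → ρ g v = v → δ g = 1 → g = 1)
    (hv : ∀ v, Generated Q (stab ρ v)) : Generated Q L := by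
  classical
  -- the action on unordered pairs
  let F : L →* Function.End (Sym2 V) :=
    { toFun := fun g => Sym2.map (ρ g)
      map_one' := by funext e; simp [Function.End.one_def]
      map_mul' := by
        intro g g'
        funext e
        change _ = Sym2.map (ρ g) (Sym2.map (ρ g') e)
        rw [Sym2.map_map, map_mul]
        rfl }
  let ρe : L →* Equiv.Perm (Sym2 V) := F.toHomPerm
  have hρe : ∀ g u v, ρe g s(u, v) = s(ρ g u, ρ g v) := fun g u v => rfl
  have hedge : ∀ g e, e ∈ T.edgeSet → ρe g e ∈ T.edgeSet := by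
    intro g e he
    induction e using Sym2.ind with | _ u v => exact hadj g u v he
  have hδ' : ∀ g e, e ∈ T.edgeSet → ρe g e = e → δ g = 1 → g = 1 := by
    intro g e he hg
    induction e using Sym2.ind with | _ u v =>
    rw [hρe, Sym2.eq_iff] at hg
    rcases hg with ⟨h1, h2⟩ | ⟨h1, h2⟩
    · exact hδ g u v he h1 h2
    · exact absurd h2 (hinv g u v he h1)
  have hfz : ∀ (z : L) (k : ℤ) e, ρe z e = e → ρe (z ^ k) e = e := by
    intro z k e he
    exact (stab ρe e).zpow_mem (mem_stab.2 he) k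
  have hcomb : ∀ z₁ z₂ e, e ∈ T.edgeSet → z₁ ≠ 1 → z₂ ≠ 1 → ρe z₁ e = e → ρe z₂ e = e →
      ∃ z, z ≠ 1 ∧ (∀ v, ρe z₁ v = v → ρe z v = v) ∧ ∀ v, ρe z₂ v = v → ρe z v = v := by
    intro z₁ z₂ x hx h1 h2 f1 f2
    have d1 : (δ z₁).toAdd ≠ 0 := fun e => h1 (hδ' _ x hx f1 (toAdd_eq_zero.1 e))
    have d2 : (δ z₂).toAdd ≠ 0 := fun e => h2 (hδ' _ x hx f2 (toAdd_eq_zero.1 e))
    have e : z₁ ^ (δ z₂).toAdd = z₂ ^ (δ z₁).toAdd := by
      rw [← mul_inv_eq_one]
      refine hδ' _ x hx (mem_stab.1 ((stab ρe x).mul_mem (hfz _ _ _ f1)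
        ((stab ρe x).inv_mem (hfz _ _ _ f2)))) ?_
      rw [← toAdd_eq_zero, map_mul, map_inv, map_zpow, map_zpow, toAdd_mul, toAdd_inv,
        toAdd_zpow, toAdd_zpow, smul_eq_mul, smul_eq_mul]
      ring
    refine ⟨z₁ ^ (δ z₂).toAdd, ?_, fun v hv => hfz _ _ _ hv, fun v hv => e ▸ hfz _ _ _ hv⟩
    intro e'
    have := congrArg (fun g => (δ g).toAdd) e'
    simp only [map_zpow, toAdd_zpow, smul_eq_mul, map_one, toAdd_one, mul_eq_zero] at this
    tauto
  have hconj : ∀ g z : L, z ≠ 1 → g * z * g⁻¹ ≠ 1 := by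
    intro g z hz e
    apply hz
    have : z = g⁻¹ * (g * z * g⁻¹) * g := by group
    rw [this, e]; group
  let κ : Sym2 V → Set (Sym2 V) := fun e =>
    {e' | e' = e ∨ ∃ z, z ≠ 1 ∧ ρe z e = e ∧ ρe z e' = e'}
  let F' : L →* Function.End (Set (Sym2 V)) :=
    { toFun := fun g S => ρe g '' S
      map_one' := by funext S; simp [Function.End.one_def]
      map_mul' := by
        intro g g'
        funext S
        change _ = ρe g '' (ρe g' '' S)
        rw [Set.image_image, map_mul]
        rfl }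
  let τ : L →* Equiv.Perm (Set (Sym2 V)) := F'.toHomPerm
  have hτ : ∀ g S, τ g S = ρe g '' S := fun g S => rfl
  have hκ : ∀ g e, κ (ρe g e) = τ g (κ e) := by
    intro g e
    rw [hτ]
    ext e'
    constructor
    · rintro (rfl | ⟨z, h1, h2, h3⟩)
      · exact ⟨e, Or.inl rfl, rfl⟩
      · refine ⟨ρe g⁻¹ e', Or.inr ⟨g⁻¹ * z * g⁻¹⁻¹, hconj _ _ h1, ?_, ?_⟩, by simp⟩
        · simp [h2]
        · simp [h3]
    · rintro ⟨e', rfl | ⟨z, h1, h2, h3⟩, rfl⟩
      · exact Or.inl rfl
      · refine Or.inr ⟨g * z * g⁻¹, hconj _ _ h1, ?_, ?_⟩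
        · simp [h2]
        · simp [h3]
  have hsub : ∀ g e e', e ∈ T.edgeSet → g ≠ 1 → ρe g e = e → ρe g e' = e' → κ e ⊆ κ e' := by
    rintro g e e' he hg h1 h2 e'' (rfl | ⟨z, k1, k2, k3⟩)
    · exact Or.inr ⟨g, hg, h2, h1⟩
    · obtain ⟨w, w1, w2, w3⟩ := hcomb g z e he hg k1 h1 k2
      exact Or.inr ⟨w, w1, w2 _ h2, w3 _ k3⟩
  refine Generated.of_col T ρ hT hadj κ τ (fun g u v => hκ g s(u, v)) ?_ hv ?_
  · intro g x y z hx hy hz hxy hxz hne
    by_contra hg
    have h1 : ρe g s(x, y) = s(x, y) := by rw [hρe, hx, hy]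
    have h2 : ρe g s(x, z) = s(x, z) := by rw [hρe, hx, hz]
    exact hne (Set.Subset.antisymm (hsub g _ _ hxy hg h1 h2) (hsub g _ _ hxz hg h2 h1))
  · intro u v huv
    set e := s(u, v) with hedef
    have he : e ∈ T.edgeSet := huv
    have hmem : ∀ g ∈ stab τ (κ e),
        ρe g e = e ∨ ∃ z, z ≠ 1 ∧ ρe z e = e ∧ ρe z (ρe g e) = ρe g e := by
      intro g hg
      rw [mem_stab, ← hκ] at hg
      have : ρe g e ∈ κ (ρe g e) := Or.inl rfl
      rw [hg] at this
      exact this
    by_cases hu : ∃ z, z ≠ 1 ∧ ρe z e = e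
    · refine Generated.of_local' _ fun s hs => ?_
      have : ∃ z, z ≠ 1 ∧ ρe z e = e ∧ ∀ g ∈ s, ρe z (ρe g e) = ρe g e := by
        induction s using Finset.induction_on with
        | empty =>
          obtain ⟨z, h1, h2⟩ := hu
          exact ⟨z, h1, h2, by simp⟩
        | insert g s _ ih =>
          obtain ⟨z, h1, h2, h3⟩ := ih (fun x hx => hs (by simp [hx]))
          rcases hmem g (hs (by simp)) with e' | ⟨z', h1', h2', h3'⟩
          · refine ⟨z, h1, h2, ?_⟩
            intro g' hg'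
            rcases Finset.mem_insert.1 hg' with rfl | hg'
            · rw [e', h2]
            · exact h3 g' hg'
          · obtain ⟨w, w1, w2, w3⟩ := hcomb z z' e he h1 h1' h2 h2'
            refine ⟨w, w1, w2 _ h2, ?_⟩
            intro g' hg'
            rcases Finset.mem_insert.1 hg' with rfl | hg'
            · exact w3 _ h3'
            · exact w2 _ (h3 g' hg')
      obtain ⟨z, h1, h2, h3⟩ := this
      refine ⟨Subgroup.centralizer {z}, ?_, ?_⟩
      · intro g hg
        rw [SetLike.mem_coe, Subgroup.mem_centralizer_singleton_iff]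
        have : z⁻¹ * (g * z * g⁻¹) = 1 := by
          refine hδ' _ (ρe g e) (hedge g e he) (mem_stab.1 ((stab ρe _).mul_mem
            ((stab ρe _).inv_mem (h3 g hg)) ?_)) ?_
          · rw [mem_stab]; simp [h2]
          · simp [map_mul, mul_comm]
        calc g * z = z * (z⁻¹ * (g * z * g⁻¹)) * g := by group
          _ = z * g := by rw [this, mul_one]
      · refine Generated.of_central (δ.comp (Subgroup.subtype _))
          ⟨z, Subgroup.mem_centralizer_singleton_iff.2 rfl⟩ ?_ ?_ ?_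
        · intro g
          exact Subtype.ext (Subgroup.mem_centralizer_singleton_iff.1 g.2)
        · intro e'
          exact h1 (hδ' z e he h2 e')
        · refine Generated.of_edge_triv T
            ((ρ.comp (Subgroup.subtype _)).comp (Subgroup.subtype _)) hT
            (fun g => hadj _) (fun g => hinv _) ?_ ?_
          · intro g u v huv h1 h2
            exact Subtype.ext (Subtype.ext (hδ _ u v huv h1 h2 g.2))
          · intro v
            exact Generated.stab_sub _ _ v (Generated.stab_sub _ _ v (hv v))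
    · refine Generated.of_comm ?_
      intro a b
      have : (a : L) = 1 := by
        by_contra ha
        rcases hmem a a.2 with e' | ⟨z, h1, h2, -⟩
        · exact hu ⟨a, ha, e'⟩
        · exact hu ⟨z, h1, h2⟩
      rw [show a = 1 from Subtype.ext this]
      simp

/-- A homomorphism to a good group that is injective on edge stabilisers. -/
theorem Generated.of_edge_inj {L V P : Type} [Group L] [Group P] (T : SimpleGraph V)
    (ρ : L →* Equiv.Perm V) (hT : T.IsTree) (hadj : ∀ g u v, T.Adj u v → T.Adj (ρ g u) (ρ g v))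
    (hinv : ∀ g u v, T.Adj u v → ρ g u = v → ρ g v ≠ u) (ψ : L →* P) (hP : Generated Q P)
    (hψ : ∀ g u v, T.Adj u v → ρ g u = u → ρ g v = v → ψ g = 1 → g = 1)
    (hv : ∀ v, Generated Q (stab ρ v)) : Generated Q L := by
  refine Generated.ext' ψ hP fun g₀ => ?_
  set q := ψ g₀
  set L' := (Subgroup.zpowers q).comap ψ
  by_cases hq : IsOfFinOrder q
  · let φ : L' →* Subgroup.zpowers q := (ψ.comp L'.subtype).codRestrict _ (fun x => x.2)
    have : Finite (Subgroup.zpowers q) := finite_zpowers.2 hq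
    refine Generated.finiteIndex _ φ.ker (Subgroup.finiteIndex_ker φ) ?_
    refine Generated.of_edge_triv T ((ρ.comp (Subgroup.subtype _)).comp (Subgroup.subtype _)) hT
      (fun g => hadj _) (fun g => hinv _) ?_ ?_
    · intro g u v huv h1 h2
      exact Subtype.ext (Subtype.ext (hψ _ u v huv h1 h2 (congrArg Subtype.val g.2)))
    · intro v
      exact Generated.stab_sub _ _ v (Generated.stab_sub _ _ v (hv v))
  · have hinj : Function.Injective (zpowersHom P q) := fun a b h =>
      Multiplicative.toAdd.injective (injective_zpow_iff_not_isOfFinOrder.2 hq h)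
    let φ : L' →* (zpowersHom P q).range := (ψ.comp L'.subtype).codRestrict _ (fun x => by
      obtain ⟨k, hk⟩ := x.2
      exact ⟨Multiplicative.ofAdd k, hk⟩)
    refine Generated.of_edge_int T (ρ.comp (Subgroup.subtype _)) hT (fun g => hadj _)
      (fun g => hinv _) ((MonoidHom.ofInjective hinj).symm.toMonoidHom.comp φ) ?_ ?_
    · intro g u v huv h1 h2 hg
      have : φ g = 1 := (MonoidHom.ofInjective hinj).symm.map_eq_one_iff.1 hg
      exact Subtype.ext (hψ _ u v huv h1 h2 (congrArg Subtype.val this))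
    · intro v
      exact Generated.stab_sub _ _ v (hv v)

/-- Relative version: only the edges outside an invariant subforest `T₀` are controlled by `ψ`. -/
theorem Generated.of_rel_inj {L V P : Type} [Group L] [Group P] (T T₀ : SimpleGraph V)
    (ρ : L →* Equiv.Perm V) (hT : T.IsTree) (h0 : T₀ ≤ T)
    (hadj : ∀ g u v, T.Adj u v → T.Adj (ρ g u) (ρ g v))
    (hadj₀ : ∀ g u v, T₀.Adj u v → T₀.Adj (ρ g u) (ρ g v))
    (hinv : ∀ g u v, T.Adj u v → ρ g u = v → ρ g v ≠ u) (ψ : L →* P) (hP : Generated Q P)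
    (hψ : ∀ g u v, T.Adj u v → ¬ T₀.Adj u v → ρ g u = u → ρ g v = v → ψ g = 1 → g = 1)
    (hv : ∀ (v : V) (S : Subgroup L), (∀ g ∈ S, T₀.Reachable v (ρ g v)) → Generated Q S) :
    Generated Q L := by
  obtain ⟨ρ₁, hρ₁⟩ := exists_compAct T₀ ρ hadj₀
  refine Generated.of_edge_inj (collapse T T₀) ρ₁ (collapse_isTree hT h0)
    (collapse_adj_act hadj hρ₁) ?_ ψ hP ?_ ?_
  · rintro g _ _ ⟨hne, u, w, huw, rfl, rfl⟩ ha hb
    rw [hρ₁] at ha hb
    obtain ⟨e1, e2⟩ := collapse_unique hT.isAcyclic h0 huw hne (hadj g u w huw).symm hb ha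
    exact hinv g u w huw e2 e1
  · rintro g _ _ ⟨hne, u, w, huw, rfl, rfl⟩ ha hb
    rw [hρ₁] at ha hb
    obtain ⟨e1, e2⟩ := collapse_unique hT.isAcyclic h0 huw hne (hadj g u w huw) ha hb
    exact hψ g u w huw (fun h => hne (ConnectedComponent.sound h.reachable)) e1 e2
  · intro a
    induction a using ConnectedComponent.ind with | _ v =>
    refine hv v _ ?_
    intro g hg
    rw [mem_stab, hρ₁] at hg
    exact (ConnectedComponent.exact hg).symm

theorem Generated.prod_int {G : Type} [Group G] (h : Generated Q G) :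
    Generated Q (G × Multiplicative ℤ) := by
  refine Generated.ext' (MonoidHom.fst _ _) h fun g => Generated.of_comm ?_
  rintro ⟨⟨a, m⟩, k, hk⟩ ⟨⟨b, n⟩, l, hl⟩
  simp only [MonoidHom.coe_fst] at hk hl
  subst hk hl
  apply Subtype.ext
  exact Prod.ext (zpow_mul_comm _ _ _) (mul_comm _ _)

end FJ63
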