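import Pool.Agent.Lib.MP_63c928_gt.AR.Half

/-! An equivariant map of trees: preimages of vertex stabilisers. -/

namespace FJ63

open SimpleGraph

variable {Q : Type} [Group Q]

theorem reach_act {L V : Type} [Group L] {G : SimpleGraph V} {ρ : L →* Equiv.Perm V} {g : L}
    (h : ∀ u v, G.Adj u v → G.Adj (ρ g u) (ρ g v)) {x y : V} (r : G.Reachable x y) :
    G.Reachable (ρ g x) (ρ g y) :=
  r.map (⟨ρ g, fun {u v} huv => h u v huv⟩ : G →g G)

/-- Two group actions on trees together with an equivariant map between them. -/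
structure TreeMap {A W V Y : Type} [Group A] [Group W] (T : SimpleGraph V) (S : SimpleGraph Y)
    (ρ : A →* Equiv.Perm V) (σ : W →* Equiv.Perm Y) (p : A →* W) (q : V → Y) : Prop where
  hT : T.IsTree
  hS : S.IsTree
  hadj : ∀ g u v, T.Adj u v → T.Adj (ρ g u) (ρ g v)
  hadj' : ∀ g u v, S.Adj u v → S.Adj (σ g u) (σ g v)
  hinv : ∀ g u v, T.Adj u v → ρ g u = v → ρ g v ≠ u
  hinv' : ∀ g u v, S.Adj u v → σ g u = v → σ g v ≠ u
  hq : ∀ u v, T.Adj u v → S.Adj (q u) (q v)
  heq : ∀ g v, q (ρ g v) = σ (p g) (q v)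

/-- The part of `T` lying over the ball of radius `n` around `y`. -/
def ballG {V Y : Type} (T : SimpleGraph V) (S : SimpleGraph Y) (q : V → Y) (y : Y) (n : ℕ) :
    SimpleGraph V where
  Adj u v := T.Adj u v ∧ S.dist (q u) y ≤ n ∧ S.dist (q v) y ≤ n
  symm := ⟨fun _ _ ⟨h1, h2, h3⟩ => ⟨h1.symm, h3, h2⟩⟩
  loopless := ⟨fun _ h => T.irrefl h.1⟩

variable {A W V Y : Type} [Group A] [Group W] {T : SimpleGraph V} {S : SimpleGraph Y}
  {ρ : A →* Equiv.Perm V} {σ : W →* Equiv.Perm Y} {p : A →* W} {q : V → Y}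

theorem TreeMap.ball_act (H : TreeMap T S ρ σ p q) {y : Y} {n : ℕ} {g : A} (hg : σ (p g) y = y)
    (u v : V) (h : (ballG T S q y n).Adj u v) : (ballG T S q y n).Adj (ρ g u) (ρ g v) := by
  have key : ∀ u, S.dist (q (ρ g u)) y = S.dist (q u) y := by
    intro u
    conv_lhs => rw [H.heq, ← hg]
    exact dist_act H.hS H.hadj' _ _ _
  exact ⟨H.hadj g u v h.1, by rw [key]; exact h.2.1, by rw [key]; exact h.2.2⟩

/-- For every vertex `y` below, a homomorphism to a good group that is injective on the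
stabilisers of the vertices over `y`. -/
def FibreInj (Q : Type) [Group Q] (ρ : A →* Equiv.Perm V) (σ : W →* Equiv.Perm Y) (p : A →* W)
    (q : V → Y) : Prop :=
  ∀ y, ∃ (P : Type) (_ : Group P) (ψ : (stab σ y).comap p →* P), Generated Q P ∧
    ∀ (g : (stab σ y).comap p) v, q v = y → ρ g v = v → ψ g = 1 → (g : A) = 1

theorem TreeMap.stab_gen (H : TreeMap T S ρ σ p q) (hψ : FibreInj Q ρ σ p q) (v : V) :
    Generated Q (stab ρ v) := by
  obtain ⟨P, _, ψ, hP, hψ⟩ := hψ (q v)
  have hle : stab ρ v ≤ (stab σ (q v)).comap p := by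
    intro g hg
    rw [Subgroup.mem_comap, mem_stab, ← H.heq, mem_stab.1 hg]
  refine Generated.subgroup _ P (ψ.comp (Subgroup.inclusion hle)) ?_ hP
  rw [injective_iff_map_eq_one]
  intro g hg
  exact Subtype.ext (hψ (Subgroup.inclusion hle g) v rfl g.2 hg)

theorem TreeMap.ball_gen (H : TreeMap T S ρ σ p q) (hψ : FibreInj Q ρ σ p q) (n : ℕ) :
    ∀ (y : Y) (M : Subgroup A) (v₀ : V), M ≤ (stab σ y).comap p →
      (∀ g ∈ M, (ballG T S q y n).Reachable v₀ (ρ g v₀)) → S.dist (q v₀) y ≤ n →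
      Generated Q M := by
  induction n with
  | zero =>
    intro y M v₀ hM hr h0
    refine Generated.of_le ?_ (H.stab_gen hψ v₀)
    intro g hg
    refine (reach_ind (G := ballG T S q y 0) (fun u => v₀ = u) rfl ?_ (hr g hg)).symm
    rintro u v - ⟨h1, h2, h3⟩ -
    have e1 := H.hS.connected.dist_eq_zero_iff.1 (Nat.le_zero.1 h2)
    have e2 := H.hS.connected.dist_eq_zero_iff.1 (Nat.le_zero.1 h3)
    exact absurd (e1.trans e2.symm) (H.hq u v h1).ne
  | succ n ih =>
    intro y M v₀ hM hr h0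
    set D := ballG T S q y (n + 1) with hD
    have hfix : ∀ g ∈ M, σ (p g) y = y := fun g hg => hM hg
    have hDact : ∀ g ∈ M, ∀ u v, D.Adj u v → D.Adj (ρ g u) (ρ g v) :=
      fun g hg => H.ball_act (hfix g hg)
    have hK : ∀ g ∈ M, ∀ u, D.Reachable v₀ u → D.Reachable v₀ (ρ g u) :=
      fun g hg u hu => (hr g hg).trans (reach_act (hDact g hg) hu)
    let Sp : V → V → Prop := fun u v => D.Adj u v ∧ D.Reachable v₀ u ∧ (q u = y ∨ q v = y)
    have hSp : ∀ g ∈ M, ∀ u v, Sp u v → Sp (ρ g u) (ρ g v) := by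
      rintro g hg u v ⟨h1, h2, h3⟩
      refine ⟨hDact g hg u v h1, hK g hg u h2, ?_⟩
      rw [H.heq, H.heq]
      rcases h3 with h | h
      · left; rw [h, hfix g hg]
      · right; rw [h, hfix g hg]
    let T₀ : SimpleGraph V :=
      { Adj := fun u v => T.Adj u v ∧ ¬ Sp u v
        symm := ⟨fun _ _ h => ⟨h.1.symm, fun h' =>
          h.2 ⟨h'.1.symm, h'.2.1.trans h'.1.reachable, h'.2.2.symm⟩⟩⟩
        loopless := ⟨fun _ h => T.irrefl h.1⟩ }
    have hT₀ : ∀ g ∈ M, ∀ u v, T₀.Adj u v → T₀.Adj (ρ g u) (ρ g v) := by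
      rintro g hg u v ⟨h1, h2⟩
      refine ⟨H.hadj g u v h1, fun h => h2 ?_⟩
      simpa using hSp g⁻¹ (M.inv_mem hg) _ _ h
    obtain ⟨P, _, ψ, hP, hψ'⟩ := hψ y
    refine Generated.of_rel_inj T T₀ (ρ.comp M.subtype) H.hT (fun _ _ h => h.1)
      (fun g => H.hadj g) (fun g => hT₀ g g.2) (fun g => H.hinv g)
      (ψ.comp (Subgroup.inclusion hM)) hP ?_ ?_
    · intro g u v huv hn h1 h2 h3
      have hs : Sp u v := by
        by_contra hs
        exact hn ⟨huv, hs⟩
      rcases hs.2.2 with h | h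
      · exact Subtype.ext (hψ' (Subgroup.inclusion hM g) u h h1 h3)
      · exact Subtype.ext (hψ' (Subgroup.inclusion hM g) v h h2 h3)
    · intro v N hN
      obtain ⟨z, hz1, hz2⟩ : ∃ z, D.Reachable v₀ z ∧ T₀.Reachable v z := by
        refine reach_ind (G := T) (fun v => ∃ z, D.Reachable v₀ z ∧ T₀.Reachable v z)
          ⟨v₀, Reachable.refl _, Reachable.refl _⟩ ?_ (H.hT.connected.preconnected v₀ v)
        rintro u u' - huu ⟨z, h1, h2⟩
        by_cases hs : Sp u u'
        · exact ⟨u', hs.2.1.trans hs.1.reachable, Reachable.refl _⟩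
        · exact ⟨z, h1, (Adj.reachable (G := T₀) ⟨huu, hs⟩).symm.trans h2⟩
      have hzd : S.dist (q z) y ≤ n + 1 :=
        reach_ind (G := D) (fun z => S.dist (q z) y ≤ n + 1) h0 (fun _ _ _ h _ => h.2.2) hz1
      have hboth : ∀ g ∈ N, (D ⊓ T₀).Reachable z (ρ (g : A) z) := by
        intro g hg
        refine reach_inf H.hT.isAcyclic (G₁ := D) (G₂ := T₀) (fun _ _ h => h.1) (fun _ _ h => h.1)
          (hz1.symm.trans (hK g g.2 z hz1)) ?_
        exact (hz2.symm.trans (hN g hg)).trans (reach_act (hT₀ g g.2) hz2)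
      have hedge : ∀ u u', (D ⊓ T₀).Reachable z u → (D ⊓ T₀).Adj u u' → q u ≠ y ∧ q u' ≠ y := by
        intro u u' hu huu
        have := huu.2.2
        have h2 : D.Reachable v₀ u := hz1.trans (hu.mono inf_le_left)
        exact ⟨fun h => this ⟨huu.1, h2, Or.inl h⟩, fun h => this ⟨huu.1, h2, Or.inr h⟩⟩
      by_cases hzy : q z = y
      · refine Generated.of_map_le M.subtype N (stab ρ z) (fun x _ hx => Subtype.ext hx) ?_
          (H.stab_gen hψ z)
        intro g hg
        refine (reach_ind (G := D ⊓ T₀) (fun u => z = u) rfl ?_ (hboth g hg)).symm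
        rintro u u' hu huu rfl
        exact absurd hzy (hedge _ _ hu huu).1
      · obtain ⟨y', hy', hR⟩ := exists_Rh H.hS (Ne.symm hzy)
        have hmain : ∀ u, (D ⊓ T₀).Reachable z u →
            Rh S y y' (q u) ∧ (ballG T S q y' n).Reachable z u := by
          intro u hu
          refine reach_ind (G := D ⊓ T₀)
            (fun u => Rh S y y' (q u) ∧ (ballG T S q y' n).Reachable z u)
            ⟨hR, Reachable.refl _⟩ ?_ hu
          rintro u u' hu huu ⟨h1, h2⟩
          obtain ⟨e1, e2⟩ := hedge _ _ hu huu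
          have h3 : Rh S y y' (q u') := h1.step (H.hq _ _ huu.1.1) (by
            rw [Ne, Sym2.eq_iff]
            rintro (⟨h, -⟩ | ⟨-, h⟩)
            · exact e1 h
            · exact e2 h)
          refine ⟨h3, h2.trans (Adj.reachable ⟨huu.1.1, ?_, ?_⟩)⟩
          · have := h1.dist H.hS hy'
            have := huu.1.2.1
            omega
          · have := h3.dist H.hS hy'
            have := huu.1.2.2
            omega
        refine Generated.of_map_le M.subtype N (N.map M.subtype) (fun x _ hx => Subtype.ext hx)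
          (fun x hx => ⟨x, hx, rfl⟩) (ih y' _ z ?_ ?_ ?_)
        · rintro _ ⟨g, hg, rfl⟩
          have h1 := (hmain _ (hboth g hg)).1
          have h2 := (Rh.act H.hS H.hadj' (p g) hy').2 hR
          have h3 := H.hadj' (p g) _ _ hy'
          rw [hfix g g.2] at h2 h3
          rw [← H.heq] at h2
          exact Rh.unique H.hS h3 hy' h2 h1
        · rintro _ ⟨g, hg, rfl⟩
          exact (hmain _ (hboth g hg)).2
        · have := hR.dist H.hS hy'
          omega

/-- The preimage of a vertex stabiliser is good. -/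
theorem TreeMap.elliptic (H : TreeMap T S ρ σ p q) (hψ : FibreInj Q ρ σ p q) (y : Y) :
    Generated Q ((stab σ y).comap p) := by
  classical
  have : Nonempty V := H.hT.connected.nonempty
  let v₀ : V := Classical.arbitrary V
  have hex : ∀ v, ∃ n, ∀ m, n ≤ m → (ballG T S q y m).Reachable v₀ v := by
    intro v
    refine reach_ind (G := T) (fun v => ∃ n, ∀ m, n ≤ m → (ballG T S q y m).Reachable v₀ v)
      ⟨0, fun _ _ => Reachable.refl _⟩ ?_ (H.hT.connected.preconnected v₀ v)
    rintro u u' - huu ⟨n, hn⟩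
    refine ⟨n + S.dist (q u) y + S.dist (q u') y, fun m hm => (hn m (by omega)).trans
      (Adj.reachable ⟨huu, by omega, by omega⟩)⟩
  choose N hN using hex
  refine Generated.of_local' _ fun s hs => ?_
  set n := s.sup (fun g => N (ρ g v₀)) + S.dist (q v₀) y with hn
  let M : Subgroup A :=
    { carrier := {g | σ (p g) y = y ∧ (ballG T S q y n).Reachable v₀ (ρ g v₀)}
      one_mem' := by simp
      mul_mem' := by
        rintro a b ⟨a1, a2⟩ ⟨b1, b2⟩
        refine ⟨by rw [map_mul, map_mul, Equiv.Perm.mul_apply, b1, a1], ?_⟩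
        rw [map_mul, Equiv.Perm.mul_apply]
        exact a2.trans (reach_act (H.ball_act a1) b2)
      inv_mem' := by
        rintro a ⟨a1, a2⟩
        have a1' : σ (p a⁻¹) y = y := ((stab σ y).comap p).inv_mem a1
        refine ⟨a1', ?_⟩
        simpa using (reach_act (H.ball_act a1') a2).symm }
  refine ⟨M, fun g hg => ⟨hs hg, hN _ _ ?_⟩,
    H.ball_gen hψ n y M v₀ (fun g hg => hg.1) (fun g hg => hg.2) (by omega)⟩
  have := Finset.le_sup (f := fun g => N (ρ g v₀)) hg
  omega

end FJ63
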