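import Pool.Agent.Lib.MP_63c928_gt.AR.Col

/-! Half-trees, branches and the height function along an axis. -/

namespace FJ63

open SimpleGraph

variable {V : Type} {T : SimpleGraph V}

theorem path_len (hT : T.IsTree) {x y : V} (p : T.Walk x y) (hp : p.IsPath) :
    p.length = T.dist x y := by
  obtain ⟨q, hq, hl⟩ := (hT.connected.preconnected x y).exists_path_of_dist
  have : (⟨p, hp⟩ : T.Path x y) = ⟨q, hq⟩ := (hT.isAcyclic.subsingleton_path x y).elim _ _
  rw [← hl, show p = q from congrArg Subtype.val this]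

/-- Reachability in two subgraphs of a forest gives reachability in their intersection. -/
theorem reach_inf (hT : T.IsAcyclic) {G₁ G₂ : SimpleGraph V} (h1 : G₁ ≤ T) (h2 : G₂ ≤ T) {x y : V}
    (r1 : G₁.Reachable x y) (r2 : G₂.Reachable x y) : (G₁ ⊓ G₂).Reachable x y := by
  obtain ⟨p, hp⟩ := r1.exists_isPath
  obtain ⟨q, hq⟩ := r2.exists_isPath
  have : (⟨p.mapLe h1, hp.mapLe h1⟩ : T.Path x y) = ⟨q.mapLe h2, hq.mapLe h2⟩ :=
    (hT.subsingleton_path x y).elim _ _
  have e : (p.mapLe h1).edges = (q.mapLe h2).edges :=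
    congrArg (fun r : T.Path x y => r.1.edges) this
  rw [Walk.edges_mapLe_eq_edges, Walk.edges_mapLe_eq_edges] at e
  refine ⟨p.transfer (G₁ ⊓ G₂) ?_⟩
  intro d hd
  rw [edgeSet_inf]
  exact ⟨p.edges_subset_edgeSet hd, q.edges_subset_edgeSet (e ▸ hd)⟩

/-- The half-tree of the oriented edge `(a, b)` that contains `b`. -/
def Rh (T : SimpleGraph V) (a b y : V) : Prop := (T.deleteEdges {s(a, b)}).Reachable b y

theorem Rh.self (a b : V) : Rh T a b b := Reachable.refl _

theorem not_Rh (hT : T.IsTree) {a b : V} (h : T.Adj a b) : ¬ Rh T a b a := by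
  have hb := (isAcyclic_iff_forall_adj_isBridge.1 hT.isAcyclic) h
  rw [isBridge_iff] at hb
  exact fun h' => hb h'.symm

theorem Rh.step {a b y z : V} (h : Rh T a b y) (hyz : T.Adj y z) (hne : s(y, z) ≠ s(a, b)) :
    Rh T a b z := by
  refine Reachable.trans h (Adj.reachable ?_)
  rw [deleteEdges_adj]
  exact ⟨hyz, by simpa using hne⟩

theorem Rh_total (hT : T.IsTree) (a b y : V) : Rh T a b y ∨ Rh T b a y := by
  refine reach_ind (G := T) (fun y => Rh T a b y ∨ Rh T b a y) (Or.inl (Rh.self a b)) ?_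
    (hT.connected.preconnected b y)
  intro y z _ hyz ih
  by_cases he : s(y, z) = s(a, b)
  · rw [Sym2.eq_iff] at he
    rcases he with ⟨-, rfl⟩ | ⟨-, rfl⟩
    · exact Or.inl (Rh.self _ _)
    · exact Or.inr (Rh.self _ _)
  · rcases ih with h | h
    · exact Or.inl (h.step hyz he)
    · exact Or.inr (h.step hyz (by rwa [Sym2.eq_swap (a := b)]))

theorem Rh.dist (hT : T.IsTree) {a b y : V} (hab : T.Adj a b) (h : Rh T a b y) :
    T.dist y a = T.dist y b + 1 := by
  classical
  obtain ⟨p, hp⟩ := h.symm.exists_isPath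
  have hle : T.deleteEdges {s(a, b)} ≤ T := deleteEdges_le _
  have ha : a ∉ p.support := fun ha => not_Rh hT hab (Reachable.symm ⟨p.dropUntil a ha⟩)
  have h1 := path_len hT (p.mapLe hle) (hp.mapLe hle)
  have h2 := path_len hT ((p.mapLe hle).concat hab.symm) (by
    rw [Walk.concat_isPath_iff]
    exact ⟨hp.mapLe hle, by simpa using ha⟩)
  rw [Walk.length_concat] at h2
  omega

theorem Rh_iff (hT : T.IsTree) {a b y : V} (hab : T.Adj a b) :
    Rh T a b y ↔ T.dist y b < T.dist y a := by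
  refine ⟨fun h => by have := h.dist hT hab; omega, fun h => ?_⟩
  rcases Rh_total hT a b y with h' | h'
  · exact h'
  · have := h'.dist hT hab.symm
    omega

theorem Rh.nest {a b a' b' y : V} (h1 : Rh T a b b') (h2 : ¬ Rh T a' b' b) (h : Rh T a' b' y) :
    Rh T a b y := by
  refine reach_ind (G := T.deleteEdges {s(a', b')}) (fun y => Rh T a b y) h1 ?_ h
  intro y z hy hyz ih
  refine ih.step (deleteEdges_le _ hyz) ?_
  intro he
  rw [Sym2.eq_iff] at he
  rcases he with ⟨-, rfl⟩ | ⟨rfl, -⟩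
  · exact h2 (hy.trans hyz.reachable)
  · exact h2 hy

theorem Rh.unique (hT : T.IsTree) {a b b' y : V} (hab : T.Adj a b) (hab' : T.Adj a b')
    (h : Rh T a b y) (h' : Rh T a b' y) : b = b' := by
  by_contra hne
  have h1 : Rh T b' a b := (Rh.self b' a).step hab (by
    rw [Ne, Sym2.eq_iff]
    rintro (⟨h, -⟩ | ⟨-, h⟩)
    · exact hab'.ne h
    · exact hne h)
  have h2 : Rh T b' a y := Rh.nest h1 (not_Rh hT hab) h
  have := h2.dist hT hab'.symm
  have := h'.dist hT hab'
  omega

theorem exists_Rh (hT : T.IsTree) {a y : V} (hne : a ≠ y) : ∃ b, T.Adj a b ∧ Rh T a b y := by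
  obtain ⟨p, hp, hl⟩ := (hT.connected.preconnected a y).exists_path_of_dist
  cases p with
  | nil => exact absurd rfl hne
  | cons h p' =>
    rename_i b
    refine ⟨b, h, (Rh_iff hT h).2 ?_⟩
    have := dist_le p'
    rw [Walk.length_cons] at hl
    rw [dist_comm (u := y), dist_comm (u := y)]
    omega

section act

variable {G : Type} [Group G] {σ : G →* Equiv.Perm V}

theorem dist_act (hT : T.IsTree) (hadj : ∀ g u v, T.Adj u v → T.Adj (σ g u) (σ g v)) (g : G)
    (x y : V) : T.dist (σ g x) (σ g y) = T.dist x y := by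
  have key : ∀ (g : G) x y, T.dist (σ g x) (σ g y) ≤ T.dist x y := by
    intro g x y
    obtain ⟨p, hp⟩ := hT.connected.exists_walk_length_eq_dist x y
    have := dist_le (p.map (⟨σ g, fun {u v} h => hadj g u v h⟩ : T →g T))
    rw [Walk.length_map, hp] at this
    exact this
  refine le_antisymm (key g x y) ?_
  simpa using key g⁻¹ (σ g x) (σ g y)

theorem Rh.act (hT : T.IsTree) (hadj : ∀ g u v, T.Adj u v → T.Adj (σ g u) (σ g v)) (g : G)
    {a b y : V} (hab : T.Adj a b) : Rh T (σ g a) (σ g b) (σ g y) ↔ Rh T a b y := by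
  rw [Rh_iff hT hab, Rh_iff hT (hadj g a b hab), dist_act hT hadj, dist_act hT hadj]

/-- The height function along the axis of an element without fixed vertex. -/
theorem exists_height (hT : T.IsTree) (hadj : ∀ g u v, T.Adj u v → T.Adj (σ g u) (σ g v))
    (hinv : ∀ g u v, T.Adj u v → σ g u = v → σ g v ≠ u) (w : G) (hw : ∀ x, σ w x ≠ x) :
    ∃ (a b : V) (h : V → ℤ), T.Adj a b ∧ (∀ (k : ℤ) y, h (σ (w ^ k) y) = h y + k) ∧
      ∀ y z, T.Adj y z → h y = h z ∨
        (y = σ (w ^ h y) a ∧ z = σ (w ^ h y) b ∧ h z = h y + 1) ∨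
        (z = σ (w ^ h z) a ∧ y = σ (w ^ h z) b ∧ h y = h z + 1) := by
  have : Nonempty V := hT.connected.nonempty
  obtain ⟨a, ha⟩ := exists_minimalFor_of_wellFoundedLT (fun _ : V => True)
    (fun x => T.dist x (σ w x)) ⟨Classical.arbitrary V, trivial⟩
  have hmin : ∀ x, T.dist a (σ w a) ≤ T.dist x (σ w x) := fun x => by
    by_contra hx
    exact hx (ha.2 trivial (not_le.1 hx).le)
  obtain ⟨b, hab, hb⟩ := exists_Rh hT (hw a).symm
  have hb' : ¬ Rh T (σ w a) (σ w b) b := by
    rw [Rh_iff hT (hadj w a b hab)]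
    have h1 := hb.dist hT hab
    have h2 := hmin b
    rw [dist_comm (u := σ w a), dist_comm (u := σ w a)] at h1
    omega
  have hwb : Rh T a b (σ w b) := by
    refine hb.step (hadj w a b hab) ?_
    rw [Ne, Sym2.eq_iff]
    rintro (⟨h, -⟩ | ⟨h, h'⟩)
    · exact hw a h
    · exact hinv w a b hab h h'
  let R : ℤ → V → Prop := fun k y => Rh T (σ (w ^ k) a) (σ (w ^ k) b) y
  have hRact : ∀ k j y, R (k + j) (σ (w ^ k) y) ↔ R j y := by
    intro k j y
    simp only [R, zpow_add, map_mul, Equiv.Perm.mul_apply]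
    exact Rh.act hT hadj _ (hadj _ a b hab)
  have hR1 : ∀ k y, R (k + 1) y → R k y := by
    intro k y hy
    have e : y = σ (w ^ k) (σ (w ^ k)⁻¹ y) := by simp
    rw [e, hRact] at hy
    have h0 : R 0 (σ (w ^ k)⁻¹ y) := by
      simp only [R, zpow_one, zpow_zero, map_one, Equiv.Perm.one_apply] at hy ⊢
      exact Rh.nest hwb hb' hy
    rw [← hRact k, ← e, add_zero] at h0
    exact h0
  have hRmono : ∀ k j y, j ≤ k → R k y → R j y := by
    intro k j y hjk hy
    obtain ⟨n, rfl⟩ := Int.le.dest hjk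
    induction n with
    | zero => simpa using hy
    | succ n ih => exact ih (by omega) (hR1 _ _ (by simpa [add_assoc] using hy))
  have hRa : ∀ j, R j a ↔ j < 0 := by
    intro j
    refine ⟨fun h => ?_, fun h => hRmono (-1) j a (by omega) ?_⟩
    · by_contra hj
      have := hRmono j 0 a (by omega) h
      simp only [R, zpow_zero, map_one, Equiv.Perm.one_apply] at this
      exact not_Rh hT hab this
    · rw [← hRact 1]
      simpa [R] using hb
  have hRb : ∀ j, R j b ↔ j < 1 := by
    intro j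
    refine ⟨fun h => ?_, fun h => hRmono 0 j b (by omega) ?_⟩
    · by_contra hj
      have := hRmono j 1 b (by omega) h
      simp only [R, zpow_one] at this
      exact hb' this
    · simpa [R] using Rh.self a b
  have hRa' : ∀ k j, R j (σ (w ^ k) a) ↔ j < k := by
    intro k j
    rw [show j = k + (j - k) by ring, hRact, hRa]
    omega
  have hRb' : ∀ k j, R j (σ (w ^ k) b) ↔ j < k + 1 := by
    intro k j
    rw [show j = k + (j - k) by ring, hRact, hRb]
    omega
  have hex : ∀ y, ∃ n : ℤ, ∀ k, R k y ↔ k < n := by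
    intro y
    refine reach_ind (G := T) (fun y => ∃ n : ℤ, ∀ k, R k y ↔ k < n) ⟨0, hRa⟩ ?_
      (hT.connected.preconnected a y)
    rintro y z - hyz ⟨n, hn⟩
    by_cases he : ∃ k : ℤ, s(y, z) = s(σ (w ^ k) a, σ (w ^ k) b)
    · obtain ⟨k, hk⟩ := he
      rw [Sym2.eq_iff] at hk
      rcases hk with ⟨-, rfl⟩ | ⟨-, rfl⟩
      · exact ⟨_, hRb' k⟩
      · exact ⟨_, hRa' k⟩
    · push Not at he
      refine ⟨n, fun k => Iff.trans ⟨fun h => h.step hyz.symm ?_, fun h => h.step hyz (he k)⟩ (hn k)⟩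
      rw [Sym2.eq_swap]
      exact he k
  choose h hh using hex
  have huniq : ∀ y n, (∀ k, R k y ↔ k < n) → h y = n := by
    intro y n hn
    have h1 := (hh y (h y)).symm.trans (hn (h y))
    have h2 := (hh y n).symm.trans (hn n)
    omega
  refine ⟨a, b, h, hab, ?_, ?_⟩
  · intro k y
    refine huniq _ _ fun j => ?_
    rw [show j = k + (j - k) by ring, hRact, hh]
    omega
  · intro y z hyz
    by_cases he : ∃ k : ℤ, s(y, z) = s(σ (w ^ k) a, σ (w ^ k) b)
    · obtain ⟨k, hk⟩ := he
      have e1 := huniq _ _ (hRa' k)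
      have e2 := huniq _ _ (hRb' k)
      rw [Sym2.eq_iff] at hk
      rcases hk with ⟨rfl, rfl⟩ | ⟨rfl, rfl⟩
      · right; left
        rw [e1, e2]
        exact ⟨rfl, rfl, rfl⟩
      · right; right
        rw [e1, e2]
        exact ⟨rfl, rfl, rfl⟩
    · push Not at he
      left
      refine huniq _ _ fun k => Iff.trans
        ⟨fun h => h.step hyz (he k), fun h => h.step hyz.symm ?_⟩ (hh z k)
      rw [Sym2.eq_swap]
      exact he k

end act

end FJ63
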