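import Pool.Agent.Lib.MP_63c928_gt.AR.Ell

/-! An equivariant map of trees: preimages of cyclic groups without fixed vertex. -/

namespace FJ63

open SimpleGraph

variable {Q : Type} [Group Q]

/-- Separation criterion: fixed subtrees of nontrivial elements have bounded height. -/
theorem Generated.of_sep' {L V : Type} [Group L] (T : SimpleGraph V) (ρ : L →* Equiv.Perm V)
    (hT : T.IsTree) (hadj : ∀ g u v, T.Adj u v → T.Adj (ρ g u) (ρ g v))
    (h : V → ℤ) (η : L →* Multiplicative ℤ) (hh : ∀ g v, h (ρ g v) = h v + (η g).toAdd)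
    (hedge : ∀ u w, T.Adj u w → h w = h u + 1 ∨ h u = h w + 1 ∨ h u = h w) (M : ℕ)
    (hM : ∀ g p q, ρ g p = p → ρ g q = q → g ≠ 1 → h p - h q ≤ M)
    (hker : Generated Q η.ker) : Generated Q L := by
  set n : ℤ := M + 1 with hn
  have hn0 : 0 < n := by omega
  obtain ⟨L₀, hfi, hL₀⟩ := exists_finiteIndex_dvd η n hn0.ne'
  refine Generated.finiteIndex L L₀ hfi ?_
  let K : V → ℤ := fun v => h v - h v % n
  have hK : ∀ (g : L₀) v, K (ρ g v) = K v + (η g).toAdd := by
    intro g v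
    obtain ⟨m, hm⟩ := (hL₀ g).1 g.2
    simp only [K, hh, hm, Int.add_mul_emod_self_left]
    ring
  let T₀ : SimpleGraph V :=
    { Adj := fun u w => T.Adj u w ∧ K u = K w
      symm := ⟨fun _ _ h => ⟨h.1.symm, h.2.symm⟩⟩
      loopless := ⟨fun _ h => T.irrefl h.1⟩ }
  have h0 : T₀ ≤ T := fun _ _ h => h.1
  let ρ₀ : L₀ →* Equiv.Perm V := ρ.comp L₀.subtype
  have hadj₀ : ∀ (g : L₀) u v, T.Adj u v → T.Adj (ρ₀ g u) (ρ₀ g v) := fun g => hadj g
  obtain ⟨ρ₁, hρ₁⟩ := exists_compAct T₀ ρ₀ (by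
    intro g u v huv
    refine ⟨hadj g u v huv.1, ?_⟩
    change K (ρ g u) = K (ρ g v)
    rw [hK, hK, huv.2])
  let κ : T₀.ConnectedComponent → ℤ := ConnectedComponent.lift K
    (fun x y p _ => reach_inv (G := T₀) K (fun _ _ h => h.2) ⟨p⟩)
  have hκ : ∀ v, κ (T₀.connectedComponentMk v) = K v := fun v => rfl
  have hfix : ∀ (g : L₀) a b, ρ₁ g a = a → ρ₁ g b = b → (collapse T T₀).Adj a b →
      ∃ p, ρ g p = p ∧ h p = min (κ a) (κ b) + n ∧ h p % n = 0 := by
    rintro g _ _ ha hb ⟨hne, u, w, huw, rfl, rfl⟩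
    rw [hρ₁] at ha hb
    obtain ⟨e1, e2⟩ := collapse_unique hT.isAcyclic h0 huw hne (hadj₀ g u w huw) ha hb
    have hKne : K u ≠ K w := fun e =>
      hne (ConnectedComponent.sound (Adj.reachable (G := T₀) ⟨huw, e⟩))
    rw [hκ, hκ]
    rcases hedge u w huw with e | e | e
    · obtain ⟨s1, s2⟩ := slab_step n (h u) hn0 (by
        intro e'; apply hKne; simp only [K]; rw [e, e'])
      refine ⟨w, e2, ?_, by rw [e]; exact s2⟩
      simp only [K]
      rw [e, s2]
      omega
    · obtain ⟨s1, s2⟩ := slab_step n (h w) hn0 (by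
        intro e'; apply hKne; simp only [K]; rw [e, e'])
      refine ⟨u, e1, ?_, by rw [e]; exact s2⟩
      simp only [K]
      rw [e, s2]
      omega
    · exact absurd (by simp only [K, e]) hKne
  refine Generated.of_cyl (collapse T T₀) ρ₁ (collapse_isTree hT h0)
    (collapse_adj_act hadj₀ hρ₁) κ (η.comp L₀.subtype) ?_ ?_ ?_
  · intro g a
    induction a using ConnectedComponent.ind with | _ v =>
    rw [hρ₁, hκ, hκ]
    exact hK g v
  · intro g x y z hx hy hz hxy hxz hne
    obtain ⟨p, hp1, hp2, hp3⟩ := hfix g x y hx hy hxy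
    obtain ⟨q, hq1, hq2, hq3⟩ := hfix g x z hx hz hxz
    by_contra hg
    have hg' : (g : L) ≠ 1 := fun e => hg (Subtype.ext e)
    have b1 := hM g p q hp1 hq1 hg'
    have b2 := hM g q p hq1 hp1 hg'
    have hd : n ∣ |h p - h q| :=
      (dvd_abs _ _).2 (dvd_sub (Int.dvd_of_emod_eq_zero hp3) (Int.dvd_of_emod_eq_zero hq3))
    have := Int.le_of_dvd (abs_pos.2 (by omega)) hd
    rcases abs_cases (h p - h q) with h' | h' <;> omega
  · refine Generated.of_map_le L₀.subtype _ η.ker (fun x _ hx => Subtype.ext hx)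
      (fun x hx => hx) hker

theorem fix_reach {V : Type} {T : SimpleGraph V} (hT : T.IsTree) (σ : Equiv.Perm V)
    (hσ : ∀ u v, T.Adj u v → T.Adj (σ u) (σ v)) {x y : V} (hx : σ x = x) (hy : σ y = y)
    (P : V → Prop) (h0 : P x) (hs : ∀ u v, T.Adj u v → σ u = u → σ v = v → P u → P v) : P y := by
  obtain ⟨p, hp⟩ := (hT.connected.preconnected x y).exists_isPath
  have hfix := fix_walk hT.isAcyclic σ hσ p hp hx hy
  clear hp hy
  induction p with
  | nil => exact h0
  | cons h p ih =>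
    refine ih (hfix _ (by simp)) (hs _ _ h hx (hfix _ (by simp)) h0) ?_
    intro v hv
    exact hfix v (by simp [hv])

variable {A W V Y : Type} [Group A] [Group W] {T : SimpleGraph V} {S : SimpleGraph Y}
  {ρ : A →* Equiv.Perm V} {σ : W →* Equiv.Perm Y} {p : A →* W} {q : V → Y}

/-- For the translates of an edge under `w`, a homomorphism to a good group that detects the
elements of the kernel fixing edges over a long run of translates. -/
def RunInj (Q : Type) [Group Q] (T : SimpleGraph V) (ρ : A →* Equiv.Perm V)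
    (σ : W →* Equiv.Perm Y) (p : A →* W) (q : V → Y) (w : W) (a b : Y) : Prop :=
  ∃ (N m : ℕ) (P : Type) (_ : Group P) (ψ : (Subgroup.zpowers (w ^ N)).comap p →* P),
    0 < N ∧ Generated Q P ∧ ∀ g : (Subgroup.zpowers (w ^ N)).comap p, p g = 1 →
      (∀ k : ℕ, k ≤ m → ∃ u v, T.Adj u v ∧ ρ g u = u ∧ ρ g v = v ∧ q u = σ (w ^ k) a ∧
        q v = σ (w ^ k) b) → ψ g = 1 → (g : A) = 1

theorem TreeMap.hyperbolic (H : TreeMap T S ρ σ p q) (hp : Function.Surjective p)
    (hker : Generated Q p.ker) (w : W) (hw : ∀ x, σ w x ≠ x)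
    (hrun : ∀ a b, S.Adj a b → RunInj Q T ρ σ p q w a b) :
    Generated Q ((Subgroup.zpowers w).comap p) := by
  obtain ⟨a, b, h, hab, hh, hedge⟩ := exists_height H.hS H.hadj' H.hinv' w hw
  obtain ⟨N, m, P, _, hrun'⟩ := hrun a b hab
  set L := (Subgroup.zpowers w).comap p with hL
  set L₀ := (Subgroup.zpowers (w ^ N)).comap p with hL₀
  obtain ⟨ψ, hN, hP, hψ⟩ := hrun'
  have hle : L₀ ≤ L := Subgroup.comap_mono (Subgroup.zpowers_le.2 (Subgroup.npow_mem_zpowers w N))
  have hinj : Function.Injective (zpowersHom W w) := by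
    intro i j hij
    have e : w ^ i.toAdd = w ^ j.toAdd := hij
    have h1 := hh i.toAdd a
    rw [e, hh] at h1
    exact Multiplicative.toAdd.injective (by omega)
  obtain ⟨η, hη⟩ : ∃ η : L →* Multiplicative ℤ, ∀ g : L, p g = w ^ (η g).toAdd := by
    let φ : L →* (zpowersHom W w).range := (p.comp L.subtype).codRestrict _ (fun x => by
      obtain ⟨k, hk⟩ := x.2
      exact ⟨Multiplicative.ofAdd k, hk⟩)
    exact ⟨(MonoidHom.ofInjective hinj).symm.toMonoidHom.comp φ,
      fun g => (MonoidHom.apply_ofInjective_symm hinj (φ g)).symm⟩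
  obtain ⟨L₁, hfi, hL₁⟩ := exists_finiteIndex_dvd η N (by omega)
  refine Generated.finiteIndex L L₁ hfi (Generated.of_map_le L.subtype L₁ L₀
    (fun x _ hx => Subtype.ext hx) ?_ ?_)
  · intro x hx
    obtain ⟨c, hc⟩ := (hL₁ x).1 hx
    refine ⟨c, ?_⟩
    change (w ^ N) ^ c = p x
    rw [hη, hc, zpow_mul, zpow_natCast]
  let η₀ : L₀ →* Multiplicative ℤ := η.comp (Subgroup.inclusion hle)
  have hη₀ : ∀ g : L₀, p g = w ^ (η₀ g).toAdd := fun g => hη (Subgroup.inclusion hle g)
  refine Generated.ext' (ψ.prod η₀) hP.prod_int fun g₀ => ?_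
  set L' := (Subgroup.zpowers (ψ.prod η₀ g₀)).comap (ψ.prod η₀) with hL'
  have hL'mem : ∀ g : L₀, g ∈ L' → ∃ k : ℤ, ψ g = ψ g₀ ^ k ∧ η₀ g = η₀ g₀ ^ k := by
    rintro g ⟨k, hk⟩
    exact ⟨k, (congrArg Prod.fst hk).symm, (congrArg Prod.snd hk).symm⟩
  by_cases h0 : η₀ g₀ = 1
  · refine Generated.of_map_le L₀.subtype L' p.ker (fun x _ hx => Subtype.ext hx) ?_ hker
    intro x hx
    obtain ⟨k, -, hk⟩ := hL'mem x hx
    rw [MonoidHom.mem_ker]
    change p x = 1
    rw [hη₀, hk, h0]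
    simp
  have hht : ∀ (g : L₀) v, h (q (ρ g v)) = h (q v) + (η₀ g).toAdd := by
    intro g v
    rw [H.heq, hη₀, hh]
  refine Generated.of_sep' T ((ρ.comp L₀.subtype).comp L'.subtype) H.hT (fun g => H.hadj _)
    (fun v => h (q v)) (η₀.comp L'.subtype) (fun g v => hht g v) ?_ (m + N) ?_ ?_
  · intro u v huv
    rcases hedge _ _ (H.hq u v huv) with e | ⟨-, -, e⟩ | ⟨-, -, e⟩
    · exact Or.inr (Or.inr e)
    · exact Or.inl e
    · exact Or.inr (Or.inl e)
  · rintro ⟨g, hg⟩ x y hx hy hne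
    change ρ g x = x at hx
    change ρ g y = y at hy
    by_contra hlt
    apply hne
    have e0 : (η₀ g).toAdd = 0 := by
      have := hht g x
      rw [hx] at this
      omega
    obtain ⟨k, k1, k2⟩ := hL'mem g hg
    have hk : k = 0 := by
      rw [k2, toAdd_zpow, smul_eq_mul, mul_eq_zero] at e0
      exact e0.resolve_right (fun e => h0 (toAdd_eq_zero.1 e))
    rw [hk, zpow_zero] at k1
    have hpg : p g = 1 := by rw [hη₀, e0, zpow_zero]
    have hcross : ∀ c : ℤ, h (q y) ≤ c → c < h (q x) → ∃ u v, T.Adj u v ∧ ρ g u = u ∧ ρ g v = v ∧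
        q u = σ (w ^ c) a ∧ q v = σ (w ^ c) b := by
      intro c c1 c2
      by_contra hn
      have := fix_reach H.hT (ρ g) (H.hadj g) hy hx (fun u => h (q u) ≤ c) c1 (by
        intro u v huv hu hv hc
        rcases hedge _ _ (H.hq u v huv) with e | ⟨e1, e2, e⟩ | ⟨-, -, e⟩
        · omega
        · by_contra hc'
          have : h (q u) = c := by omega
          exact hn ⟨u, v, huv, hu, hv, this ▸ e1, this ▸ e2⟩
        · omega)
      omega
    obtain ⟨j, j1, j2⟩ : ∃ j : ℤ, h (q y) ≤ N * j ∧ N * j < h (q y) + N := by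
      have hN' : (0 : ℤ) < N := by omega
      have h1 := Int.emod_nonneg (-h (q y)) hN'.ne'
      have h2 := Int.emod_lt_of_pos (-h (q y)) hN'
      have h3 := Int.emod_add_mul_ediv (-h (q y)) N
      refine ⟨-(-h (q y) / N), ?_, ?_⟩ <;> rw [mul_neg] <;> omega
    obtain ⟨c, hc⟩ := hp (w ^ ((N : ℤ) * j))
    have hcm : c ∈ L₀ := ⟨j, by
      change (w ^ N) ^ j = p c
      rw [hc, zpow_mul, zpow_natCast]⟩
    have := hψ ((⟨c, hcm⟩ : L₀)⁻¹ * g * ⟨c, hcm⟩) (by simp [hpg]) ?_ (by simp [k1])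
    · apply Subtype.ext
      apply Subtype.ext
      change c⁻¹ * g * c = 1 at this
      change (g : A) = 1
      calc (g : A) = c * (c⁻¹ * g * c) * c⁻¹ := by group
        _ = 1 := by rw [this]; group
    · intro k hk
      obtain ⟨u, v, huv, hu, hv, qu, qv⟩ := hcross (N * j + k) (by omega) (by
        push_cast at hlt
        omega)
      refine ⟨ρ c⁻¹ u, ρ c⁻¹ v, H.hadj _ _ _ huv, by simp [hu], by simp [hv], ?_, ?_⟩
      · rw [H.heq, qu, map_inv, hc, zpow_add, map_mul, zpow_natCast]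
        simp
      · rw [H.heq, qv, map_inv, hc, zpow_add, map_mul, zpow_natCast]
        simp
  · refine Generated.of_map_le (L₀.subtype.comp L'.subtype) _ p.ker
      (fun x _ hx => Subtype.ext (Subtype.ext hx)) ?_ hker
    intro x hx
    rw [MonoidHom.mem_ker] at hx ⊢
    change p (x : L₀) = 1
    change η₀ x = 1 at hx
    rw [hη₀, hx]
    simp

/-- The two cases together. -/
theorem TreeMap.generated (H : TreeMap T S ρ σ p q) (hp : Function.Surjective p)
    (hW : Generated Q W) (hψ : FibreInj Q ρ σ p q)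
    (hrun : ∀ w a b, S.Adj a b → RunInj Q T ρ σ p q w a b) : Generated Q A := by
  have : Nonempty Y := H.hS.connected.nonempty
  have hker : Generated Q p.ker := by
    refine Generated.of_le ?_ (H.elliptic hψ (Classical.arbitrary Y))
    intro g hg
    rw [MonoidHom.mem_ker] at hg
    rw [Subgroup.mem_comap, hg]
    exact one_mem _
  refine Generated.ext' p hW fun g => ?_
  by_cases hw : ∃ x, σ (p g) x = x
  · obtain ⟨x, hx⟩ := hw
    exact Generated.of_le (Subgroup.comap_mono (Subgroup.zpowers_le.2 (mem_stab.2 hx)))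
      (H.elliptic hψ x)
  · push Not at hw
    exact H.hyperbolic hp hker _ hw (hrun _)

end FJ63
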