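import Pool.Agent.Lib.MP_63c928_gt.AR.Run

/-! Reduction of an Artin group to its Coxeter group and its free-of-infinity parabolic
subgroups. -/

set_option linter.unusedSectionVars false

namespace FJ63

open Pool.Agent.H10 CoxeterSystem

variable {Q : Type} [Group Q] {B : Type} [Fintype B] [DecidableEq B] {M : CoxeterMatrix B}

theorem artin_amalgam (T : Bool → Set B) (hT : ∀ i j, M i j ≠ 0 → ∃ b, i ∈ T b ∧ j ∈ T b) :
    IsAmalgam (fun b => apar M (T b)) (apar M (T true ∩ T false)) := by
  refine isAmalgam_of_gens (gen M) T (fun r => ?_) ?_ ?_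
  · obtain ⟨b, hb, -⟩ := hT r r (by simp)
    exact ⟨b, hb⟩
  · rw [← Set.image_univ]
    exact apar_univ
  · intro K _ ξ hξ
    refine ⟨alift ξ ?_, fun r => alift_gen _ _ r⟩
    intro i _ j _
    by_cases h0 : M i j = 0
    · simp [h0, alt]
    obtain ⟨b, hi, hj⟩ := hT i j h0
    obtain ⟨θ, hθ⟩ := hξ b
    have key : ∀ (l : List B) (hl : ∀ c ∈ l, c ∈ T b),
        (l.map ξ).prod = θ ⟨pos M l, pos_mem_apar hl⟩ := by
      intro l hl
      induction l with
      | nil => exact (map_one θ).symm
      | cons a l ih =>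
        rw [List.map_cons, List.prod_cons, ih (fun c hc => hl c (by simp [hc])),
          hθ a (hl a (by simp)), ← map_mul]
        congr 1
    rw [key _ (fun c hc => by rcases mem_alt hc with rfl | rfl <;> assumption),
      key _ (fun c hc => by rcases mem_alt hc with rfl | rfl <;> assumption)]
    congr 1
    exact Subtype.ext (brOn_gen i trivial j trivial)

theorem cox_amalgam (T : Bool → Set B) (hT : ∀ i j, M i j ≠ 0 → ∃ b, i ∈ T b ∧ j ∈ T b) :
    IsAmalgam (fun b => par (cx M) (T b)) (par (cx M) (T true ∩ T false)) := by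
  refine isAmalgam_of_gens (cx M).simple T (fun r => ?_) (cx M).subgroup_closure_range_simple ?_
  · obtain ⟨b, hb, -⟩ := hT r r (by simp)
    exact ⟨b, hb⟩
  · intro K _ ξ hξ
    refine ⟨(cx M).lift ⟨ξ, ?_⟩, fun r => (cx M).lift_apply_simple _ r⟩
    intro i j
    by_cases h0 : M i j = 0
    · simp [h0]
    obtain ⟨b, hi, hj⟩ := hT i j h0
    obtain ⟨θ, hθ⟩ := hξ b
    rw [hθ i hi, hθ j hj, ← map_mul, ← map_pow, ← map_one θ]
    congr 1
    exact Subtype.ext ((cx M).simple_mul_simple_pow i j)

theorem artin_step (T : Bool → Set B) (hT : ∀ i j, M i j ≠ 0 → ∃ b, i ∈ T b ∧ j ∈ T b)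
    (hW : Generated Q M.Group) (hA : ∀ b, Generated Q (apar M (T b))) :
    Generated Q (Artin M) := by
  obtain ⟨tA, iA⟩ := (artin_amalgam T hT).main
  obtain ⟨tW, iW⟩ := (cox_amalgam T hT).main
  obtain ⟨q, hq, H⟩ := exists_treeMap (fun b => apar M (T b)) (fun b => par (cx M) (T b)) (pr M)
    (fun b g hg => pr_mem hg) tA tW
  refine H.generated pr_surj hW ?_ ?_
  · intro y
    obtain ⟨b, x, rfl⟩ := vx_surj y
    refine ⟨apar M (T b), inferInstance, MonoidHom.mk' (fun g => ccs (T b) x⁻¹ g) ?_, hA b, ?_⟩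
    · rintro ⟨g, hg⟩ g'
      rw [Subgroup.coe_mul, ccs_mul]
      congr 1
      apply Subtype.ext
      rw [Subgroup.mem_comap, mem_stab, cosetAct_vx, eq_comm, vx_eq] at hg
      exact cc_congr (by simpa [mul_assoc] using hg.2) _
    · intro g v hv hg hψ
      obtain ⟨b', a, rfl⟩ := vx_surj v
      rw [hq, vx_eq] at hv
      obtain ⟨rfl, hv⟩ := hv
      rw [cosetAct_vx, eq_comm, vx_eq] at hg
      have h1 : cc (T b') x⁻¹ g = 1 := congrArg Subtype.val hψ
      have e1 : (g : Artin M) = a * (a⁻¹ * (g * a)) * a⁻¹ := by group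
      have hx : x⁻¹ * pr M a ∈ par (cx M) (T b') := by simpa using inv_mem hv
      have h2 : x⁻¹ * pr M (a * (a⁻¹ * (g * a))) * (pr M a)⁻¹ * x⁻¹⁻¹ ∈ par (cx M) (T b') := by
        have : x⁻¹ * pr M (a * (a⁻¹ * (g * a))) * (pr M a)⁻¹ * x⁻¹⁻¹ =
            (x⁻¹ * pr M a) * pr M (a⁻¹ * (g * a)) * (x⁻¹ * pr M a)⁻¹ := by
          rw [map_mul]; group
        rw [this]
        exact mul_mem (mul_mem hx (pr_mem hg.2)) (inv_mem hx)
      rw [e1, cc_mul, cc_mul, cc_inv, cc_congr (y := x⁻¹ * pr M a) (y' := 1) (by simpa using hx),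
        cc_of_mem hg.2, cc_congr h2] at h1
      rw [e1, conj_eq_one h1]
      group
  · rintro w _ _ ⟨b, x, rfl, rfl⟩
    obtain ⟨N, m, Z, ψ, hN, hZ, hψ⟩ := exists_run (T true ∩ T false) w x
    refine ⟨N, m, apar M Z, inferInstance, ψ, hN,
      Generated.of_le (apar_mono (hZ.trans Set.inter_subset_left)) (hA true), ?_⟩
    intro g hg hk
    refine hψ g hg fun k hk' => ?_
    obtain ⟨_, _, ⟨b', a, rfl, rfl⟩, h1, h2, h3, h4⟩ := hk k hk'
    rw [cosetAct_vx, eq_comm, vx_eq] at h1 h2
    rw [hq, cosetAct_vx, vx_eq] at h3 h4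
    refine ⟨a, ?_, ?_⟩
    · cases b'
      · exact iW _ h4.2 h3.2
      · exact iW _ h3.2 h4.2
    · rw [mul_assoc]
      cases b'
      · exact iA _ h2.2 h1.2
      · exact iA _ h1.2 h2.2

/-- The restriction of a Coxeter matrix to a subset. -/
def subM (M : CoxeterMatrix B) (X : Set B) : CoxeterMatrix X where
  M := fun i j => M i j
  isSymm := by
    ext i j
    exact M.symmetric j i
  diagonal i := M.diagonal i
  off_diagonal i j h := M.off_diagonal i j (fun e => h (Subtype.ext e))

section sub

variable (X : Set B) [Fintype X]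

theorem exists_sub_hom : ∃ (ι : Artin (subM M X) →* Artin M) (π : apar M X →* Artin (subM M X)),
    (∀ r, ι (gen _ r) = gen M r) ∧ Function.Injective ι ∧ Function.Injective π := by
  classical
  have hι : BrOn (subM M X) Set.univ (fun r : X => gen M r) := by
    intro i _ j _
    have := brOn_gen (M := M) i trivial j trivial
    rw [← alt_map, ← alt_map, List.map_map, List.map_map] at this
    exact this
  let φ : B → Artin (subM M X) := fun r => if h : r ∈ X then gen _ ⟨r, h⟩ else 1
  have hφ' : ∀ r : X, φ r = gen _ r := fun r => dif_pos r.2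
  have hφ : BrOn M X φ := by
    intro i hi j hj
    have := brOn_gen (M := subM M X) ⟨i, hi⟩ trivial ⟨j, hj⟩ trivial
    rw [alt_map, alt_map, ← hφ', ← hφ'] at this
    rw [alt_map, alt_map]
    exact this
  have hmem : ∀ g, alift _ hι g ∈ apar M X := by
    intro g
    refine apar_induction (P := fun g => alift _ hι g ∈ apar M X) (mem_apar_univ g) (by simp) ?_ ?_
    · intro g _ i _ ih
      rw [map_mul, alift_gen]
      exact mul_mem ih (gen_mem_apar i.2)
    · intro g _ i _ ih
      rw [map_mul, map_inv, alift_gen]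
      exact mul_mem ih (inv_mem (gen_mem_apar i.2))
  refine ⟨alift _ hι, parLift hφ, fun r => alift_gen _ _ r, ?_, ?_⟩
  · refine Function.LeftInverse.injective (g := rext hφ) fun g => ?_
    refine apar_induction (P := fun g => rext hφ (alift _ hι g) = g) (mem_apar_univ g)
      (by simp) ?_ ?_
    · intro g _ i _ ih
      rw [map_mul, alift_gen, rext_mul hφ (hmem g), ih, rext_gen hφ i.2, hφ']
    · intro g _ i _ ih
      rw [map_mul, map_inv, alift_gen, rext_mul hφ (hmem g), ih, rext_inv hφ (gen_mem_apar i.2),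
        rext_gen hφ i.2, hφ']
  · have key : ∀ g ∈ apar M X, alift _ hι (rext hφ g) = g := by
      intro g hg
      refine apar_induction (P := fun g => alift _ hι (rext hφ g) = g) hg (by simp) ?_ ?_
      · intro g hg i hi ih
        rw [rext_mul hφ hg, map_mul, ih, rext_gen hφ hi, hφ' ⟨i, hi⟩, alift_gen]
      · intro g hg i hi ih
        rw [rext_mul hφ hg, map_mul, ih, rext_inv hφ (gen_mem_apar hi), map_inv, rext_gen hφ hi,
          hφ' ⟨i, hi⟩, alift_gen]
    intro a b hab
    apply Subtype.ext
    rw [← key a a.2, ← key b b.2]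
    exact congrArg _ hab

theorem exists_sub_cox : ∃ κ : (subM M X).Group →* M.Group, Function.Injective κ := by
  classical
  let κ : (subM M X).Group →* M.Group := (cx (subM M X)).lift
    ⟨fun r : X => (cx M).simple r, fun i j => (cx M).simple_mul_simple_pow i j⟩
  have hκ : ∀ r : X, κ ((cx (subM M X)).simple r) = (cx M).simple r :=
    fun r => (cx (subM M X)).lift_apply_simple _ r
  let E : (X → ℝ) → (B → ℝ) := fun v j => if h : j ∈ X then v ⟨j, h⟩ else 0
  have hE : ∀ v (j : X), E v j = v j := fun v j => dif_pos j.2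
  have hbf : ∀ (i : X) v, bf M i (E v) = bf (subM M X) i v := by
    intro i v
    change ∑ j, -kc M i j * E v j = ∑ j : X, -kc (subM M X) i j * v j
    rw [← Finset.sum_subset (Finset.subset_univ X.toFinset) (by
      intro j _ hj
      rw [Set.mem_toFinset] at hj
      simp [E, hj]), Finset.sum_subtype X.toFinset (p := (· ∈ X)) (fun x => Set.mem_toFinset)]
    refine Finset.sum_congr rfl fun j _ => ?_
    rw [hE]
    rfl
  have hs : ∀ (i : X) v, sref M i (E v) = E (sref (subM M X) i v) := by
    intro i v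
    rw [sref_apply, sref_apply, hbf]
    funext j
    by_cases hj : j ∈ X
    · have := hE (v - (2 * bf (subM M X) i v) • ee i) ⟨j, hj⟩
      simp only at this
      rw [this]
      simp [E, hj, ee, Pi.single_apply, Subtype.ext_iff]
    · have : j ≠ i := fun e => hj (e ▸ i.2)
      simp [E, hj, ee, this]
  have key : ∀ w v, rho (cx M) (κ w) (E v) = E (rho (cx (subM M X)) w v) := by
    intro w
    induction w using (cx (subM M X)).simple_induction_left with
    | one => simp
    | mul_simple_left w i ih =>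
      intro v
      rw [map_mul, map_mul, map_mul, hκ, rho_simple, rho_simple, Module.End.mul_apply,
        Module.End.mul_apply, ih, hs]
  refine ⟨κ, (injective_iff_map_eq_one κ).2 fun w hw => rho_injective (cx (subM M X)) ?_⟩
  rw [map_one]
  refine LinearMap.ext fun v => ?_
  funext j
  have := congrFun (key w v) j
  rw [hw, map_one, Module.End.one_apply, hE, hE] at this
  exact this.symm

end sub

theorem artin_ind (n : ℕ) : ∀ (B : Type) [Fintype B] [DecidableEq B] (M : CoxeterMatrix B),
    Fintype.card B < n → Generated Q M.Group →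
    (∀ X : Set B, (∀ s ∈ X, ∀ t ∈ X, M s t ≠ 0) → Generated Q (apar M X)) →
    Generated Q (Artin M) := by
  induction n with
  | zero => intro B _ _ M h; omega
  | succ n ih =>
    intro B _ _ M hn hW hc
    classical
    by_cases h : ∀ s t, M s t ≠ 0
    · have := hc Set.univ (fun s _ t _ => h s t)
      rw [apar_univ] at this
      exact this.of_top
    push Not at h
    obtain ⟨s, t, hst⟩ := h
    have hsub : ∀ r : B, Generated Q (apar M {r}ᶜ) := by
      intro r
      obtain ⟨ι, π, hι, hι', hπ⟩ := exists_sub_hom (M := M) {r}ᶜ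
      obtain ⟨κ, hκ⟩ := exists_sub_cox (M := M) {r}ᶜ
      refine Generated.subgroup _ _ π hπ (ih _ (subM M {r}ᶜ) ?_ (Generated.subgroup _ _ κ hκ hW) ?_)
      · have := Fintype.card_subtype_lt (p := (· ∈ ({r}ᶜ : Set B))) (x := r) (by simp)
        exact lt_of_lt_of_le (by convert this) (Nat.lt_succ_iff.1 hn)
      · intro X hX
        refine Generated.of_map_le ι _ (apar M (Subtype.val '' X))
          (fun x _ hx => hι' (by rw [hx, map_one])) ?_ (hc _ ?_)
        · intro x hx
          refine apar_induction (P := fun x => ι x ∈ apar M (Subtype.val '' X)) hx (by simp) ?_ ?_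
          · intro g _ i hi ih
            rw [map_mul, hι]
            exact mul_mem ih (gen_mem_apar ⟨i, hi, rfl⟩)
          · intro g _ i hi ih
            rw [map_mul, map_inv, hι]
            exact mul_mem ih (inv_mem (gen_mem_apar ⟨i, hi, rfl⟩))
        · rintro _ ⟨i, hi, rfl⟩ _ ⟨j, hj, rfl⟩
          exact hX i hi j hj
    refine artin_step (fun b => cond b {s}ᶜ {t}ᶜ) ?_ hW (fun b => by cases b <;> exact hsub _)
    intro i j hij
    by_cases h1 : i = s ∨ j = s
    · refine ⟨false, ?_, ?_⟩
      · rintro rfl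
        rcases h1 with rfl | rfl
        · simp at hst
        · exact hij (by rw [M.symmetric, hst])
      · rintro rfl
        rcases h1 with rfl | rfl
        · exact hij hst
        · simp at hst
    · push Not at h1
      exact ⟨true, h1.1, h1.2⟩

theorem artin_main {B : Type} [Finite B] (M : CoxeterMatrix B) :
    Generated (M.Group × ∀ X : {X : Set B // ∀ s ∈ X, ∀ t ∈ X, M s t ≠ 0}, apar M X.1)
      (Artin M) := by
  classical
  have := Fintype.ofFinite B
  refine artin_ind _ B M (Nat.lt_succ_self _)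
    (Generated.subgroup _ _ (MonoidHom.inl _ _) (fun a b h => congrArg Prod.fst h) Generated.base) ?_
  intro X hX
  refine Generated.subgroup _ _ ((MonoidHom.inr _ _).comp
    (MonoidHom.mulSingle (fun X : {X : Set B // ∀ s ∈ X, ∀ t ∈ X, M s t ≠ 0} => apar M X.1)
      ⟨X, hX⟩)) ?_ Generated.base
  intro a b h
  exact Pi.mulSingle_injective (M := fun X : {X : Set B // ∀ s ∈ X, ∀ t ∈ X, M s t ≠ 0} =>
    apar M X.1) ⟨X, hX⟩ (congrArg Prod.snd h)

end FJ63
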