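import Pool.Agent.Lib.MP_63c928_gt.AR.Coc

/-! Runs of translates of a parabolic coset. -/

set_option linter.unusedSectionVars false

namespace FJ63

open Pool.Agent.H10 CoxeterSystem

variable {B : Type} [Fintype B] [DecidableEq B] {M : CoxeterMatrix B}

theorem exists_double_min (X Y : Set B) (y : M.Group) :
    ∃ α d β, α ∈ par (cx M) X ∧ β ∈ par (cx M) Y ∧ LMin M X d ∧
      (∀ t ∈ Y, ¬ (cx M).IsRightDescent d t) ∧ y = α * d * β := by
  obtain ⟨d, hd⟩ := exists_minimalFor_of_wellFoundedLT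
    (fun d : M.Group => ∃ α β, α ∈ par (cx M) X ∧ β ∈ par (cx M) Y ∧ y = α * d * β)
    (cx M).length ⟨y, 1, 1, one_mem _, one_mem _, by simp⟩
  obtain ⟨α, β, hα, hβ, e⟩ := hd.1
  refine ⟨α, d, β, hα, hβ, fun t ht h => ?_, fun t ht h => ?_, e⟩
  · have := hd.2 (j := (cx M).simple t * d) ⟨α * (cx M).simple t, β,
      mul_mem hα (simple_mem_par _ ht), hβ, by
        rw [e, mul_assoc α ((cx M).simple t), (cx M).simple_mul_simple_cancel_left]⟩ h.le
    exact absurd h (not_lt.2 this)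
  · have := hd.2 (j := d * (cx M).simple t) ⟨α, (cx M).simple t * β, hα,
      mul_mem (simple_mem_par _ ht) hβ, by
        rw [e, mul_assoc α, mul_assoc α, mul_assoc d, (cx M).simple_mul_simple_cancel_left]⟩ h.le
    exact absurd h (not_lt.2 this)

theorem conj_par {X Y : Set B} {d : M.Group}
    (h : ∀ t ∈ X, d⁻¹ * (cx M).simple t * d ∈ par (cx M) Y) {x : M.Group}
    (hx : x ∈ par (cx M) X) : d⁻¹ * x * d ∈ par (cx M) Y := by
  refine par_induction (cx M) (P := fun x => d⁻¹ * x * d ∈ par (cx M) Y) hx (by simp) ?_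
  intro x _ i hi ih
  have : d⁻¹ * (x * (cx M).simple i) * d = (d⁻¹ * x * d) * (d⁻¹ * (cx M).simple i * d) := by group
  rw [this]
  exact mul_mem ih (h i hi)

/-- The parabolic subgroup fixing the first `m + 1` cosets, and the kernel property. -/
def RunData (Y : Set B) (e : ℕ → M.Group) (m : ℕ) (u : M.Group) (Z : Set B) : Prop :=
  Z ⊆ Y ∧ (∀ y, (∀ k ≤ m, (e k)⁻¹ * y * e k ∈ par (cx M) Y) ↔ u⁻¹ * y * u ∈ par (cx M) Z) ∧
    ∀ g : Artin M, pr M g = 1 →
      (∀ k ≤ m, ∃ a, (pr M a)⁻¹ * e k ∈ par (cx M) Y ∧ a⁻¹ * g * a ∈ apar M Y) →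
      cc Z u⁻¹ g = 1 → g = 1

theorem conj_eq_one {G : Type} [Group G] {a b : G} (h : a * b * a⁻¹ = 1) : b = 1 := by
  have : b = a⁻¹ * (a * b * a⁻¹) * a := by group
  rw [this, h]; group

theorem runData_zero (Y : Set B) (e : ℕ → M.Group) : RunData Y e 0 (e 0) Y := by
  refine ⟨subset_rfl, fun y => by simp, ?_⟩
  intro g hg h hc
  obtain ⟨a, h1, h2⟩ := h 0 le_rfl
  have e1 : g = a * (a⁻¹ * g * a) * a⁻¹ := by group
  have hb : pr M (a⁻¹ * g * a) = 1 := by simp [hg]
  rw [e1, cc_conj _ _ _ _ hb, cc_congr (y := (e 0)⁻¹ * pr M a) (y' := 1)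
    (by simpa using inv_mem h1), cc_of_mem h2] at hc
  rw [e1, conj_eq_one hc]
  group

theorem RunData.step {Y X : Set B} {e : ℕ → M.Group} {m : ℕ} {u : M.Group}
    (h : RunData Y e m u X) : ∃ u' Z, RunData Y e (m + 1) u' Z ∧ (Z.ncard < X.ncard ∨
      ∀ y, u⁻¹ * y * u ∈ par (cx M) X → (e (m + 1))⁻¹ * y * e (m + 1) ∈ par (cx M) Y) := by
  classical
  obtain ⟨-, hP, hK⟩ := h
  obtain ⟨α, d, β, hα, hβ, hd, hd', hy⟩ := exists_double_min X Y (u⁻¹ * e (m + 1))
  set u' := e (m + 1) * β⁻¹ with hu'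
  have hu : u' = u * α * d := by
    rw [hu', mul_inv_eq_iff_eq_mul, mul_assoc, mul_assoc, ← mul_assoc α, ← hy]
    group
  have he : e (m + 1) = u' * β := by rw [hu']; group
  let Z : Set B := {z | z ∈ Y ∧ ∃ t ∈ X, d * (cx M).simple z = (cx M).simple t * d}
  have hZ : Z ⊆ Y := fun z hz => hz.1
  let f : B → B := fun z => if h : z ∈ Z then h.2.choose else z
  have hf : ∀ z ∈ Z, f z ∈ X ∧ d * (cx M).simple z = (cx M).simple (f z) * d := by
    intro z hz
    simp only [f, dif_pos hz]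
    exact hz.2.choose_spec
  have h2 : ∀ v ∈ par (cx M) Y, ∀ t ∈ X, d * v = (cx M).simple t * d →
      ∃ z ∈ Z, v = (cx M).simple z := by
    intro v hv t ht e'
    obtain ⟨-, z, hz, rfl⟩ := simple_of_conj hd' hv e'
    exact ⟨z, ⟨hz, t, ht, e'⟩, rfl⟩
  obtain ⟨F, hF⟩ := exists_conj_hom hd (fun t ht => hd' t (hZ ht)) f hf
  have c1 : ∀ y, (e (m + 1))⁻¹ * y * e (m + 1) ∈ par (cx M) Y ↔ u'⁻¹ * y * u' ∈ par (cx M) Y := by
    intro y
    have : (e (m + 1))⁻¹ * y * e (m + 1) = β⁻¹ * (u'⁻¹ * y * u') * β := by rw [he]; group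
    rw [this, mul_mem_cancel_right hβ, mul_mem_cancel_left (inv_mem hβ)]
  have c2 : ∀ y, u⁻¹ * y * u ∈ par (cx M) X ↔ d * (u'⁻¹ * y * u') * d⁻¹ ∈ par (cx M) X := by
    intro y
    have : d * (u'⁻¹ * y * u') * d⁻¹ = α⁻¹ * (u⁻¹ * y * u) * α := by rw [hu]; group
    rw [this, mul_mem_cancel_right hα, mul_mem_cancel_left (inv_mem hα)]
  refine ⟨u', Z, ⟨hZ, ?_, ?_⟩, ?_⟩
  · intro y
    constructor
    · intro hk
      have k1 := (c2 y).1 ((hP y).1 fun k hk' => hk k (by omega))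
      have k2 := (c1 y).1 (hk _ le_rfl)
      have k3 := sim_lm hd hZ (fun z hz => hz.2) h2 k2
      rw [lm_eq hd k1, eq_comm, mul_eq_left] at k3
      have := lm_spec Z (u'⁻¹ * y * u')
      rwa [k3, inv_one, mul_one] at this
    · intro hk k hk'
      rcases Nat.lt_or_eq_of_le hk' with hlt | rfl
      · refine (hP y).2 ((c2 y).2 ?_) k (by omega)
        have := conj_par (d := d⁻¹) (Y := X) (fun t ht => by
          rw [inv_inv, (hf t ht).2, mul_inv_cancel_right]
          exact simple_mem_par _ (hf t ht).1) hk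
        rwa [inv_inv] at this
      · exact (c1 y).2 (par_mono _ hZ hk)
  · intro g hg hk hc
    refine hK g hg (fun k hk' => hk k (by omega)) ?_
    obtain ⟨a, h1, h3⟩ := hk _ le_rfl
    have e1 : g = a * (a⁻¹ * g * a) * a⁻¹ := by group
    have hb : pr M (a⁻¹ * g * a) = 1 := by simp [hg]
    have hv : u'⁻¹ * pr M a ∈ par (cx M) Y := by
      have : u'⁻¹ * pr M a = β * ((pr M a)⁻¹ * e (m + 1))⁻¹ := by rw [he]; group
      rw [this]
      exact mul_mem hβ (inv_mem h1)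
    rw [e1, cc_conj _ _ _ _ hb] at hc ⊢
    have k1 := sim_cc hd hZ F (fun z hz => ⟨f z, (hf z hz).1, (hf z hz).2, hF z hz⟩) h2 hv h3
    rw [show ccs Z (u'⁻¹ * pr M a) (a⁻¹ * g * a) = 1 from Subtype.ext (conj_eq_one hc),
      map_one] at k1
    rw [cc_congr (y := u⁻¹ * pr M a) (y' := d * (u'⁻¹ * pr M a)) (by
      have : u⁻¹ * pr M a * (d * (u'⁻¹ * pr M a))⁻¹ = α := by rw [hu]; group
      rw [this]
      exact hα), k1]
    group
  · by_cases hs : X ⊆ f '' Z
    · right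
      intro y hy'
      have := conj_par (d := d) (Y := Y) (fun t ht => by
        obtain ⟨z, hz, rfl⟩ := hs ht
        rw [mul_assoc, ← (hf z hz).2, inv_mul_cancel_left]
        exact simple_mem_par _ hz.1) ((c2 y).1 hy')
      refine (c1 y).2 ?_
      convert this using 1
      group
    · left
      have hinj : Set.InjOn f Z := by
        intro z hz z' hz' e'
        apply simple_inj (cx M)
        apply mul_left_cancel (a := d)
        rw [(hf z hz).2, (hf z' hz').2, e']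
      rw [← hinj.ncard_image]
      refine Set.ncard_lt_ncard ⟨?_, hs⟩ (Set.toFinite _)
      rintro _ ⟨z, hz, rfl⟩
      exact (hf z hz).1

/-- A power of an element conjugating a parabolic subgroup into itself preserves the cocycle. -/
theorem exists_pow_cc {Z : Set B} {y : M.Group}
    (hy : ∀ z ∈ Z, y⁻¹ * (cx M).simple z * y ∈ par (cx M) Z) :
    ∃ N : ℕ, 0 < N ∧ ∀ x g, cc Z (y ^ N * x) g = cc Z x g := by
  classical
  obtain ⟨d, β, hβ, hd', rfl⟩ := exists_min_right (cx M) Z y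
  have hc : ∀ z ∈ Z, d⁻¹ * (cx M).simple z * d ∈ par (cx M) Z := by
    intro z hz
    have : d⁻¹ * (cx M).simple z * d = β * ((d * β)⁻¹ * (cx M).simple z * (d * β)) * β⁻¹ := by group
    rw [this]
    exact mul_mem (mul_mem hβ (hy z hz)) (inv_mem hβ)
  have hs := fun z hz => simple_of_conj hd' (hc z hz) (t := z) (by group)
  have hd : LMin M Z d := fun z hz => (hs z hz).1
  have : ∀ z : Z, ∃ z' : Z, (cx M).simple z * d = d * (cx M).simple z' := by
    intro z
    obtain ⟨z', hz', e⟩ := (hs z z.2).2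
    exact ⟨⟨z', hz'⟩, by rw [← e]; group⟩
  choose τ hτ using this
  have hinj : Function.Injective τ := by
    intro a b e
    apply Subtype.ext
    apply simple_inj (cx M)
    apply mul_right_cancel (b := d)
    rw [hτ, hτ, e]
  let τ' : Equiv.Perm Z := Equiv.ofBijective τ (Finite.injective_iff_bijective.1 hinj)
  have hpow : ∀ (n : ℕ) (z : Z), (cx M).simple z * d ^ n = d ^ n * (cx M).simple ((τ' ^ n) z) := by
    intro n z
    induction n with
    | zero => simp
    | succ n ih =>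
      rw [pow_succ, ← mul_assoc, ih, mul_assoc, hτ, pow_succ' τ', mul_assoc]
      rfl
  have hlm : ∀ n : ℕ, LMin M Z (d ^ n) := by
    intro n
    induction n with
    | zero => simpa using lmin_one Z
    | succ n ih =>
      have := sim_lm (X := Z) (Y := Set.univ) (Z := Z) hd (Set.subset_univ _) (fun z hz => by
        obtain ⟨t, ht⟩ := τ'.surjective ⟨z, hz⟩
        refine ⟨t, t.2, ?_⟩
        rw [hτ, show τ t = ⟨z, hz⟩ from ht]) (fun v _ t ht e => by
        refine ⟨τ ⟨t, ht⟩, (τ ⟨t, ht⟩).2, mul_left_cancel (a := d) ?_⟩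
        rw [e, ← hτ]) (mem_par_univ (d ^ n))
      rw [lm_eq (y := d ^ n) ih (by simp)] at this
      rw [pow_succ', ← this]
      exact (lm Z _).2
  have hγ : ∀ n : ℕ, (d ^ n)⁻¹ * (d * β) ^ n ∈ par (cx M) Z := by
    intro n
    induction n with
    | zero => simp
    | succ n ih =>
      have : (d ^ (n + 1))⁻¹ * (d * β) ^ (n + 1) =
          d⁻¹ * ((d ^ n)⁻¹ * (d * β) ^ n) * d * β := by
        rw [pow_succ, pow_succ]; group
      rw [this]
      exact mul_mem (conj_par hc ih) hβ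
  refine ⟨orderOf τ', orderOf_pos _, fun x g => ?_⟩
  set N := orderOf τ'
  have hcomm : ∀ z ∈ Z, d ^ N * (cx M).simple z = (cx M).simple z * d ^ N := by
    intro z hz
    have := hpow N ⟨z, hz⟩
    rw [pow_orderOf_eq_one] at this
    exact this.symm
  have := sim_cc (X := Z) (Y := Set.univ) (Z := Z) (hlm N) (Set.subset_univ _) (apar M Z).subtype
    (fun z hz => ⟨z, hz, hcomm z hz, rfl⟩) (fun v _ t ht e => ⟨t, ht, mul_left_cancel (a := d ^ N)
      (by rw [e, hcomm t ht])⟩) (mem_par_univ ((d ^ N)⁻¹ * (d * β) ^ N * x)) (mem_apar_univ g)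
  rw [← mul_assoc, mul_inv_cancel_left] at this
  rw [this]
  exact cc_congr (by simpa using hγ N) g

theorem exists_run (Y : Set B) (w u₀ : M.Group) :
    ∃ (N m : ℕ) (Z : Set B) (ψ : (Subgroup.zpowers (w ^ N)).comap (pr M) →* apar M Z),
      0 < N ∧ Z ⊆ Y ∧ ∀ g : (Subgroup.zpowers (w ^ N)).comap (pr M), pr M g = 1 →
        (∀ k ≤ m, ∃ a, (pr M a)⁻¹ * (w ^ k * u₀) ∈ par (cx M) Y ∧ a⁻¹ * g * a ∈ apar M Y) →
        ψ g = 1 → (g : Artin M) = 1 := by
  obtain ⟨Z, hZ⟩ := exists_minimalFor_of_wellFoundedLT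
    (fun Z : Set B => ∃ m u, RunData Y (fun k => w ^ k * u₀) m u Z) Set.ncard
    ⟨Y, 0, _, runData_zero Y _⟩
  obtain ⟨m, u, hD⟩ := hZ.1
  obtain ⟨u', Z', hD', hor⟩ := hD.step
  have hnext := hor.resolve_left (fun h => absurd h (not_lt.2 (hZ.2 ⟨_, _, hD'⟩ h.le)))
  obtain ⟨N, hN, hcc⟩ := exists_pow_cc (Z := Z) (y := u⁻¹ * w * u) (by
    intro z hz
    have h0 : u⁻¹ * (u * (cx M).simple z * u⁻¹) * u ∈ par (cx M) Z := by
      simpa [mul_assoc] using simple_mem_par (cx M) hz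
    have h1 := (hD.2.1 _).2 h0
    have h2 := hnext _ h0
    have h3 := (hD.2.1 (w⁻¹ * (u * (cx M).simple z * u⁻¹) * w)).1 (by
      intro k hk
      have : (w ^ k * u₀)⁻¹ * (w⁻¹ * (u * (cx M).simple z * u⁻¹) * w) * (w ^ k * u₀) =
          (w ^ (k + 1) * u₀)⁻¹ * (u * (cx M).simple z * u⁻¹) * (w ^ (k + 1) * u₀) := by
        rw [pow_succ']; group
      simp only
      rw [this]
      rcases Nat.lt_or_eq_of_le hk with hlt | rfl
      · exact h1 (k + 1) hlt
      · exact h2)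
    convert h3 using 1
    group)
  let H : Subgroup M.Group :=
    { carrier := {y | ∀ x g, cc Z (y * x) g = cc Z x g}
      one_mem' := fun x g => by rw [one_mul]
      mul_mem' := fun {a b} ha hb x g => by rw [mul_assoc, ha, hb]
      inv_mem' := fun {a} ha x g => by rw [← ha, mul_inv_cancel_left] }
  refine ⟨N, m, Z, MonoidHom.mk' (fun g => ccs Z u⁻¹ g) ?_, hN, hD.1, ?_⟩
  · rintro ⟨a, j, hj⟩ b
    rw [Subgroup.coe_mul, ccs_mul]
    congr 1
    apply Subtype.ext
    have h1 : ((u⁻¹ * w * u) ^ N) ^ j ∈ H := H.zpow_mem hcc j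
    have h2 : u⁻¹ * pr M a = ((u⁻¹ * w * u) ^ N) ^ j * u⁻¹ := by
      have : u⁻¹ * w * u = u⁻¹ * w * u⁻¹⁻¹ := by rw [inv_inv]
      rw [this, conj_pow, conj_zpow, ← hj]
      group
    change cc Z (u⁻¹ * pr M a) b = cc Z u⁻¹ b
    rw [h2]
    exact h1 _ _
  · intro g hg hk hψ
    exact hD.2.2 g hg hk (congrArg Subtype.val hψ)

end FJ63
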